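import Pool.Agent.Helper10.Sub.AppDefs
import Pool.Agent.Helper28.SubJALG

/-!
# Local expansions near a reduced isolated point, uniformly
-/

set_option autoImplicit false

namespace Pool.Agent.Helper81.Sub

open Pool.Agent.Helper10.Sub MvPolynomial Filter Topology Asymptotics

lemma aeval_smul_hom {K κ L : Type*} [Field K] [Fintype κ] [Field L] [Algebra K L] (f : MvPolynomial κ K)
    (e : ℕ) (hf : f.IsHomogeneous e) (c : L) (x : κ → L) :
    aeval (c • x) f = c ^ e * aeval x f := by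
  rw [aeval_def, aeval_def, eval₂_eq', eval₂_eq', Finset.mul_sum]
  refine Finset.sum_congr rfl fun d hd => ?_
  have h1 := hf (mem_support_iff.1 hd)
  rw [← h1]
  simp only [Pi.smul_apply, smul_eq_mul, mul_pow, Finset.prod_mul_distrib,
    Finset.prod_pow_eq_pow_sum]
  rw [Finsupp.weight_apply]
  simp only [Pi.one_apply, smul_eq_mul, mul_one]
  rw [Finsupp.sum_fintype]
  · ring
  · simp

lemma onV_smul {K κ L : Type*} [Field K] [Fintype κ] [Field L] [Algebra K L] (J : Set (MvPolynomial κ K))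
    (hJh : ∀ f ∈ J, ∃ e, f.IsHomogeneous e) (c : L) (x : κ → L) (h : OnV J x) :
    OnV J (c • x) := by
  intro f hf
  obtain ⟨e, he⟩ := hJh f hf
  rw [aeval_smul_hom f e he, h f hf, mul_zero]

section normed

variable {K : Type*} [Field K] {L : Type*} [NontriviallyNormedField L] [Algebra K L] {κ : Type*}
  [Fintype κ]

lemma continuous_aeval' (f : MvPolynomial κ K) : Continuous fun x : κ → L => aeval x f := by
  have h : (fun x : κ → L => aeval x f) = fun x => eval x (map (algebraMap K L) f) := by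
    funext x
    rw [aeval_def, eval_map]
  rw [h]
  exact MvPolynomial.continuous_eval _

lemma isClosed_onV (J : Set (MvPolynomial κ K)) : IsClosed {x : κ → L | OnV J x} := by
  have : {x : κ → L | OnV J x} = ⋂ f ∈ J, {x : κ → L | aeval x f = 0} := by
    ext x
    simp only [Set.mem_iInter]
    rfl
  rw [this]
  exact isClosed_biInter fun f _ => isClosed_eq (continuous_aeval' f) continuous_const

/-- the sup norm is attained -/
lemma exists_norm_eq (x : κ → L) (hx : x ≠ 0) : ∃ j, ‖x j‖ = ‖x‖ := by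
  have hne : Nonempty κ := by
    by_contra h
    rw [not_nonempty_iff] at h
    exact hx (Subsingleton.elim _ _)
  obtain ⟨j, _, hj⟩ := Finset.exists_mem_eq_sup' (Finset.univ_nonempty (α := κ)) (fun i => ‖x i‖₊)
  refine ⟨j, ?_⟩
  have : ‖x‖₊ = ‖x j‖₊ := by
    rw [Pi.nnnorm_def, ← hj, Finset.sup'_eq_sup]
  exact congrArg NNReal.toReal this.symm

end normed

/-- LOC0 -/
theorem loc0 {K : Type} [Field K] {L : Type} [NontriviallyNormedField L] [ProperSpace L] [Algebra K L]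
    {κ : Type} [Fintype κ] {τ : Type} [Fintype τ] (J : Set (MvPolynomial κ K))
    (hJh : ∀ f ∈ J, ∃ e, f.IsHomogeneous e) (F : τ → MvPolynomial κ K) (d : τ → ℕ)
    (hF : ∀ i, (F i).IsHomogeneous (d i))
    (h : ∀ A : κ → L, A ≠ 0 → OnV J A → ∃ i, aeval A (F i) ≠ 0) :
    ∃ η : ℝ, 0 < η ∧ ∀ x : κ → L, x ≠ 0 → OnV J x → ∃ i, η * ‖x‖ ^ (d i) ≤ ‖aeval x (F i)‖ := by
  have hK : IsCompact (Metric.sphere (0 : κ → L) 1 ∩ {x | OnV J x}) :=
    (isCompact_sphere _ _).inter_right (isClosed_onV J)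
  have hcont : Continuous fun z : κ → L => ∑ i, ‖aeval z (F i)‖ :=
    continuous_finsetSum _ fun i _ => (continuous_aeval' (F i)).norm
  obtain ⟨m, hm0, hm⟩ := hK.exists_forall_le' (a := (0 : ℝ)) hcont.continuousOn (by
    rintro z ⟨hz1, hz2⟩
    have hz0 : z ≠ 0 := by
      rintro rfl
      rw [mem_sphere_zero_iff_norm, norm_zero] at hz1
      exact zero_ne_one hz1
    obtain ⟨i, hi⟩ := h z hz0 hz2
    exact Finset.sum_pos' (fun i _ => norm_nonneg _) ⟨i, Finset.mem_univ _, norm_pos_iff.2 hi⟩)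
  have hden : (0 : ℝ) < (Fintype.card τ : ℝ) + 1 := by positivity
  refine ⟨m / ((Fintype.card τ : ℝ) + 1), by positivity, ?_⟩
  intro x hx hxJ
  obtain ⟨j, hj⟩ := exists_norm_eq x hx
  have hxn : 0 < ‖x‖ := norm_pos_iff.2 hx
  have hxj : x j ≠ 0 := by
    rw [← norm_pos_iff, hj]; exact hxn
  have hz1 : ‖(x j)⁻¹ • x‖ = 1 := by
    rw [norm_smul, norm_inv, hj, inv_mul_cancel₀ hxn.ne']
  have hz2 := onV_smul J hJh (x j)⁻¹ x hxJ
  have h1 := hm _ ⟨mem_sphere_zero_iff_norm.2 hz1, hz2⟩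
  have h2 : ∃ i, m / ((Fintype.card τ : ℝ) + 1) ≤ ‖aeval ((x j)⁻¹ • x) (F i)‖ := by
    by_contra hcon
    push Not at hcon
    have h3 : ∑ i, ‖aeval ((x j)⁻¹ • x) (F i)‖ ≤ ∑ _i : τ, m / ((Fintype.card τ : ℝ) + 1) :=
      Finset.sum_le_sum fun i _ => (hcon i).le
    rw [Finset.sum_const, nsmul_eq_mul, Finset.card_univ] at h3
    have h4 : (Fintype.card τ : ℝ) * (m / ((Fintype.card τ : ℝ) + 1)) < m := by
      rw [mul_div_assoc', div_lt_iff₀ hden]
      nlinarith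
    linarith
  obtain ⟨i, hi⟩ := h2
  refine ⟨i, ?_⟩
  rw [aeval_smul_hom _ _ (hF i), norm_mul, norm_pow, norm_inv, hj] at hi
  calc m / ((Fintype.card τ : ℝ) + 1) * ‖x‖ ^ d i
      ≤ (‖x‖⁻¹ ^ d i * ‖aeval x (F i)‖) * ‖x‖ ^ d i := by gcongr
    _ = ‖aeval x (F i)‖ := by
      rw [inv_pow]
      field_simp

section taylor

variable {K : Type*} [Field K] {L : Type*} [NontriviallyNormedField L] [Algebra K L] {κ : Type*}
  [Fintype κ]

lemma dif_add (f g : MvPolynomial κ K) (A v : κ → L) :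
    dif (f + g) A v = dif f A v + dif g A v := by
  simp only [dif, map_add, add_mul, Finset.sum_add_distrib]

lemma dif_C (a : K) (A v : κ → L) : dif (C a) A v = 0 := by
  simp only [dif, pderiv_C, map_zero, zero_mul, Finset.sum_const_zero]

lemma dif_mul_X [DecidableEq κ] (f : MvPolynomial κ K) (i : κ) (A v : κ → L) :
    dif (f * X i) A v = dif f A v * A i + aeval A f * v i := by
  simp only [dif, pderiv_mul, map_add, map_mul, aeval_X, pderiv_X, add_mul,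
    Finset.sum_add_distrib]
  congr 1
  · rw [Finset.sum_mul]
    exact Finset.sum_congr rfl fun k _ => by ring
  · rw [Finset.sum_eq_single i]
    · simp
    · intro k _ hk
      simp [Ne.symm hk]
    · intro h; exact absurd (Finset.mem_univ i) h

lemma dif_isBigO (f : MvPolynomial κ K) (A : κ → L) :
    (fun z : κ → L => dif f A (z - A)) =O[𝓝 A] fun z : κ → L => ‖z - A‖ := by
  have h : ∀ i ∈ (Finset.univ : Finset κ),
      (fun z : κ → L => aeval A (pderiv i f) * (z - A) i) =O[𝓝 A] fun z : κ → L => ‖z - A‖ := by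
    intro i _
    refine IsBigO.const_mul_left ?_ _
    refine IsBigO.of_bound 1 (Eventually.of_forall fun z => ?_)
    rw [one_mul, norm_norm]
    exact norm_le_pi_norm (z - A) i
  refine (IsBigO.sum h).congr_left fun z => ?_
  rw [Finset.sum_apply]
  rfl

/-- second order Taylor estimate -/
lemma taylor_isBigO (f : MvPolynomial κ K) (A : κ → L) :
    (fun z : κ → L => aeval z f - aeval A f - dif f A (z - A)) =O[𝓝 A] fun z => ‖z - A‖ ^ 2 := by
  classical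
  induction f using MvPolynomial.induction_on with
  | C a =>
    simp only [dif_C, aeval_C, sub_self]
    exact isBigO_zero _ _
  | add f g hf hg =>
    refine (hf.add hg).congr_left fun z => ?_
    rw [dif_add, map_add, map_add]; ring
  | mul_X f i hf =>
    have h1 : (fun z : κ → L => dif f A (z - A) * (z i - A i)) =O[𝓝 A] fun z => ‖z - A‖ ^ 2 := by
      have h2 : (fun z : κ → L => z i - A i) =O[𝓝 A] fun z => ‖z - A‖ := by
        refine IsBigO.of_bound 1 (Eventually.of_forall fun z => ?_)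
        rw [one_mul, norm_norm]
        exact norm_le_pi_norm (z - A) i
      refine ((dif_isBigO f A).mul h2).congr_right fun z => ?_
      ring
    have h3 : (fun z : κ → L => (aeval z f - aeval A f - dif f A (z - A)) * z i) =O[𝓝 A]
        fun z => ‖z - A‖ ^ 2 := by
      have h4 : (fun z : κ → L => z i) =O[𝓝 A] fun _ => (1 : ℝ) :=
        ((continuous_apply i).tendsto A).isBigO_one ℝ
      refine (hf.mul h4).congr_right fun z => ?_
      ring
    refine (h1.add h3).congr_left fun z => ?_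
    rw [dif_mul_X, map_mul, map_mul, aeval_X, aeval_X, Pi.sub_apply]
    ring

end taylor

section loc

variable {K : Type} [Field K] {L : Type} [NontriviallyNormedField L] [Algebra K L] {κ : Type}
  [Fintype κ]
  [DecidableEq κ]

variable (K) in
/-- admissible local types -/
def ValidTy (t : κ × (κ → L) × (κ → L) × (κ → L)) : Prop :=
  t.2.1 t.1 = 1 ∧ t.2.2.1 t.1 = 0 ∧ t.2.2.2 t.1 = 0 ∧
    ∀ k, IsAlgebraic K (t.2.1 k) ∧ IsAlgebraic K (t.2.2.1 k) ∧ IsAlgebraic K (t.2.2.2 k)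

/-- the local estimate -/
def LocEst (G₁ G₂ : MvPolynomial κ K) (e₁ e₂ : ℕ) (c₁ c₂ : K)
    (C : ℝ) (t : κ × (κ → L) × (κ → L) × (κ → L)) (z : κ → L) : Prop :=
  ∀ v₁ v₂ : L, aeval z G₁ = algebraMap K L c₁ * v₁ ^ e₁ →
    aeval z G₂ = algebraMap K L c₂ * v₂ ^ e₂ →
    ∀ k, ‖z k - t.2.1 k - t.2.2.1 k * v₁ - t.2.2.2 k * v₂‖ ≤ C * max ‖v₁‖ ‖v₂‖ ^ 2

lemma norm_lower (a v : L) (e : ℕ) (he : 1 ≤ e) (ha : a ≠ 0) (η : ℝ) (h : η ≤ ‖a * v ^ e‖) :
    min 1 (η / ‖a‖) ≤ ‖v‖ := by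
  have ha' : 0 < ‖a‖ := norm_pos_iff.2 ha
  by_contra hcon
  rw [not_le, lt_min_iff] at hcon
  obtain ⟨h1, h2⟩ := hcon
  rw [norm_mul, norm_pow] at h
  have h3 : ‖v‖ ^ e ≤ ‖v‖ := by
    calc ‖v‖ ^ e ≤ ‖v‖ ^ 1 := pow_le_pow_of_le_one (norm_nonneg _) h1.le he
      _ = ‖v‖ := pow_one _
  rw [lt_div_iff₀ ha'] at h2
  have h4 : ‖a‖ * ‖v‖ ^ e ≤ ‖a‖ * ‖v‖ := by gcongr
  linarith [mul_comm ‖a‖ ‖v‖]

lemma norm_upper (a v : L) (e : ℕ) (ha : a ≠ 0) (h : ‖a * v ^ e‖ < ‖a‖) : ‖v‖ ≤ 1 := by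
  have ha' : 0 < ‖a‖ := norm_pos_iff.2 ha
  by_contra hcon
  rw [not_le] at hcon
  rw [norm_mul, norm_pow] at h
  have h1 : 1 ≤ ‖v‖ ^ e := one_le_pow₀ hcon.le
  nlinarith

/-- trivial type, near a point where one of the `G i` does not vanish -/
lemma loc_point_b (J : Set (MvPolynomial κ K)) (G₁ G₂ : MvPolynomial κ K) (e₁ e₂ : ℕ)
    (he₁ : 1 ≤ e₁) (he₂ : 1 ≤ e₂) (c₁ c₂ : K) (hc₁ : c₁ ≠ 0) (hc₂ : c₂ ≠ 0) (j : κ)
    (z0 : κ → L) (h : aeval z0 G₁ ≠ 0 ∨ aeval z0 G₂ ≠ 0) :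
    ∃ U ∈ 𝓝 z0, ∃ (C : ℝ) (t : κ × (κ → L) × (κ → L) × (κ → L)), 0 < C ∧ t.1 = j ∧ ValidTy K t ∧
      ∀ z ∈ U, z j = 1 → ‖z‖ ≤ 1 → OnV J z → LocEst G₁ G₂ e₁ e₂ c₁ c₂ C t z := by
  have hc₁' : algebraMap K L c₁ ≠ 0 := by
    rw [Ne, map_eq_zero]; exact hc₁
  have hc₂' : algebraMap K L c₂ ≠ 0 := by
    rw [Ne, map_eq_zero]; exact hc₂
  -- a lower bound for the maximum
  have key : ∃ U ∈ 𝓝 z0, ∃ η : ℝ, 0 < η ∧ ∀ z ∈ U, ∀ v₁ v₂ : L,
      aeval z G₁ = algebraMap K L c₁ * v₁ ^ e₁ → aeval z G₂ = algebraMap K L c₂ * v₂ ^ e₂ →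
      η ≤ max ‖v₁‖ ‖v₂‖ := by
    rcases h with h | h
    · have h1 : 0 < ‖aeval z0 G₁‖ := norm_pos_iff.2 h
      refine ⟨{z | ‖aeval z0 G₁‖ / 2 < ‖aeval z G₁‖},
        (isOpen_lt continuous_const (continuous_aeval' G₁).norm).mem_nhds (by
          show ‖aeval z0 G₁‖ / 2 < ‖aeval z0 G₁‖; linarith),
        min 1 (‖aeval z0 G₁‖ / 2 / ‖algebraMap K L c₁‖),
        lt_min one_pos (div_pos (by linarith) (norm_pos_iff.2 hc₁')), ?_⟩
      intro z hz v₁ v₂ h2 _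
      refine le_trans ?_ (le_max_left _ _)
      apply norm_lower (algebraMap K L c₁) v₁ e₁ he₁ hc₁'
      rw [← h2]
      exact (le_of_lt hz)
    · have h1 : 0 < ‖aeval z0 G₂‖ := norm_pos_iff.2 h
      refine ⟨{z | ‖aeval z0 G₂‖ / 2 < ‖aeval z G₂‖},
        (isOpen_lt continuous_const (continuous_aeval' G₂).norm).mem_nhds (by
          show ‖aeval z0 G₂‖ / 2 < ‖aeval z0 G₂‖; linarith),
        min 1 (‖aeval z0 G₂‖ / 2 / ‖algebraMap K L c₂‖),
        lt_min one_pos (div_pos (by linarith) (norm_pos_iff.2 hc₂')), ?_⟩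
      intro z hz v₁ v₂ _ h2
      refine le_trans ?_ (le_max_right _ _)
      apply norm_lower (algebraMap K L c₂) v₂ e₂ he₂ hc₂'
      rw [← h2]
      exact (le_of_lt hz)
  obtain ⟨U, hU, η, hη, hU'⟩ := key
  refine ⟨U, hU, 2 / η ^ 2, (j, Pi.single j 1, 0, 0), by positivity, rfl, ?_, ?_⟩
  · refine ⟨by simp, by simp, by simp, fun k => ⟨?_, ?_, ?_⟩⟩
    · show IsAlgebraic K ((Pi.single j (1 : L) : κ → L) k)
      rw [Pi.single_apply]
      split_ifs
      · exact isAlgebraic_one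
      · exact isAlgebraic_zero
    · exact isAlgebraic_zero
    · exact isAlgebraic_zero
  · intro z hz hzj hzn _ v₁ v₂ h1 h2 k
    have h3 := hU' z hz v₁ v₂ h1 h2
    show ‖z k - (Pi.single j (1 : L) : κ → L) k - (0 : κ → L) k * v₁ - (0 : κ → L) k * v₂‖ ≤ _
    simp only [Pi.zero_apply, zero_mul, sub_zero]
    have h4 : ‖z k - (Pi.single j (1 : L) : κ → L) k‖ ≤ 2 := by
      refine (norm_sub_le _ _).trans ?_
      have h5 : ‖z k‖ ≤ 1 := (norm_le_pi_norm z k).trans hzn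
      have h6 : ‖(Pi.single j (1 : L) : κ → L) k‖ ≤ 1 := by
        rw [Pi.single_apply]
        split_ifs
        · rw [norm_one]
        · rw [norm_zero]; exact zero_le_one
      linarith
    refine h4.trans ?_
    rw [div_mul_eq_mul_div, le_div_iff₀ (by positivity)]
    have : η ^ 2 ≤ max ‖v₁‖ ‖v₂‖ ^ 2 := by gcongr
    linarith

/-- near a common zero -/
lemma loc_point_c [CharZero K] (J : Set (MvPolynomial κ K)) (G₁ G₂ : MvPolynomial κ K) (e₁ e₂ : ℕ)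
    (he₁ : 1 ≤ e₁) (he₂ : 1 ≤ e₂) (c₁ c₂ : K) (hc₁ : c₁ ≠ 0) (hc₂ : c₂ ≠ 0) (j : κ)
    (z0 : κ → L) (hz0 : z0 j = 1) (hOn : OnV (J ∪ {G₁, G₂}) z0) (hJac : Jac (J ∪ {G₁, G₂}) z0) :
    ∃ U ∈ 𝓝 z0, ∃ (C : ℝ) (t : κ × (κ → L) × (κ → L) × (κ → L)), 0 < C ∧ t.1 = j ∧ ValidTy K t ∧
      ∀ z ∈ U, z j = 1 → ‖z‖ ≤ 1 → OnV J z → LocEst G₁ G₂ e₁ e₂ c₁ c₂ C t z := by
  classical
  have hc₁' : algebraMap K L c₁ ≠ 0 := by
    rw [Ne, map_eq_zero]; exact hc₁
  have hc₂' : algebraMap K L c₂ ≠ 0 := by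
    rw [Ne, map_eq_zero]; exact hc₂
  obtain ⟨halg, hlin⟩ := Pool.Agent.Helper28.Sub.jac_alg (J ∪ {G₁, G₂}) z0 j hz0 hOn hJac
  choose s c hs hc hv using hlin
  -- the coefficients a f, b f
  let a : MvPolynomial κ K → L := fun f =>
    if f ∉ J ∧ f = G₁ ∧ e₁ = 1 then algebraMap K L c₁ else 0
  let b : MvPolynomial κ K → L := fun f =>
    if f ∉ J ∧ f ≠ G₁ ∧ f = G₂ ∧ e₂ = 1 then algebraMap K L c₂ else 0
  have halga : ∀ f, IsAlgebraic K (a f) := by
    intro f; simp only [a]; split_ifs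
    · exact isAlgebraic_algebraMap _
    · exact isAlgebraic_zero
  have halgb : ∀ f, IsAlgebraic K (b f) := by
    intro f; simp only [b]; split_ifs
    · exact isAlgebraic_algebraMap _
    · exact isAlgebraic_zero
  let α : κ → L := fun k => if k = j then 0 else ∑ f ∈ s k, c k f * a f
  let β : κ → L := fun k => if k = j then 0 else ∑ f ∈ s k, c k f * b f
  have hsumalg : ∀ (k : κ) (g : MvPolynomial κ K → L), (∀ f, IsAlgebraic K (g f)) →
      IsAlgebraic K (∑ f ∈ s k, c k f * g f) := by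
    intro k g hg
    have : ∀ f ∈ s k, c k f * g f ∈ integralClosure K L := by
      intro f _
      exact ((hc k f).mul (hg f)).isIntegral
    have h2 := Subalgebra.sum_mem (integralClosure K L) this
    exact (isAlgebraic_iff_isIntegral.2 h2)
  -- Taylor
  have hT : ∀ k, ∃ D : ℝ, ∀ᶠ z in 𝓝 z0, ‖∑ f ∈ s k, c k f * (aeval z f - aeval z0 f -
      dif f z0 (z - z0))‖ ≤ D * ‖z - z0‖ ^ 2 := by
    intro k
    have h1 : (fun z : κ → L => ∑ f ∈ s k, c k f * (aeval z f - aeval z0 f -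
      dif f z0 (z - z0))) =O[𝓝 z0] fun z : κ → L => ‖z - z0‖ ^ 2 := by
      have h2 : ∀ f ∈ s k, (fun z : κ → L => c k f * (aeval z f - aeval z0 f -
          dif f z0 (z - z0))) =O[𝓝 z0] fun z : κ → L => ‖z - z0‖ ^ 2 :=
        fun f _ => (taylor_isBigO f z0).const_mul_left _
      refine (IsBigO.sum h2).congr_left fun z => ?_
      rw [Finset.sum_apply]
    obtain ⟨D, hD⟩ := h1.bound
    refine ⟨D, ?_⟩
    filter_upwards [hD] with z hz
    rwa [norm_pow, norm_norm] at hz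
  choose D hD using hT
  let D' : ℝ := ∑ k, |D k| + 1
  have hD'0 : 0 < D' := by positivity
  have hDD' : ∀ k, D k ≤ D' := by
    intro k
    have h1 : |D k| ≤ ∑ k, |D k| :=
      Finset.single_le_sum (f := fun k => |D k|) (fun _ _ => abs_nonneg _) (Finset.mem_univ k)
    have h2 := le_abs_self (D k)
    show D k ≤ ∑ k, |D k| + 1
    linarith
  let E : ℝ := ‖algebraMap K L c₁‖ + ‖algebraMap K L c₂‖
  have hE0 : 0 < E := add_pos (norm_pos_iff.2 hc₁') (norm_pos_iff.2 hc₂')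
  let S : ℝ := (∑ k, ∑ f ∈ s k, ‖c k f‖) * E
  have hS0 : 0 ≤ S := mul_nonneg (Finset.sum_nonneg fun k _ => Finset.sum_nonneg fun f _ =>
    norm_nonneg _) hE0.le
  have hSk : ∀ k (g : MvPolynomial κ K → L) (m : ℝ), 0 ≤ m → (∀ f ∈ s k, ‖g f‖ ≤ E * m) →
      ‖∑ f ∈ s k, c k f * g f‖ ≤ S * m := by
    intro k g m hm hg
    calc ‖∑ f ∈ s k, c k f * g f‖ ≤ ∑ f ∈ s k, ‖c k f * g f‖ := norm_sum_le _ _
      _ ≤ ∑ f ∈ s k, ‖c k f‖ * (E * m) := Finset.sum_le_sum fun f hf => by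
          rw [norm_mul]; exact mul_le_mul_of_nonneg_left (hg f hf) (norm_nonneg _)
      _ = (∑ f ∈ s k, ‖c k f‖) * E * m := by rw [← Finset.sum_mul]; ring
      _ ≤ S * m := by
          refine mul_le_mul_of_nonneg_right (mul_le_mul_of_nonneg_right ?_ hE0.le) hm
          exact Finset.single_le_sum (f := fun k => ∑ f ∈ s k, ‖c k f‖)
            (fun k _ => Finset.sum_nonneg fun f _ => norm_nonneg _) (Finset.mem_univ k)
  -- the neighbourhood
  have hG₁0 : aeval z0 G₁ = 0 := hOn G₁ (Or.inr (Or.inl rfl))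
  have hG₂0 : aeval z0 G₂ = 0 := hOn G₂ (Or.inr (Or.inr rfl))
  have hU1 : ∀ᶠ z in 𝓝 z0, ‖aeval z G₁‖ < ‖algebraMap K L c₁‖ :=
    (isOpen_lt (continuous_aeval' G₁).norm continuous_const).mem_nhds (by
      show ‖aeval z0 G₁‖ < ‖algebraMap K L c₁‖
      rw [hG₁0, norm_zero]; exact norm_pos_iff.2 hc₁')
  have hU2 : ∀ᶠ z in 𝓝 z0, ‖aeval z G₂‖ < ‖algebraMap K L c₂‖ :=
    (isOpen_lt (continuous_aeval' G₂).norm continuous_const).mem_nhds (by
      show ‖aeval z0 G₂‖ < ‖algebraMap K L c₂‖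
      rw [hG₂0, norm_zero]; exact norm_pos_iff.2 hc₂')
  have hU3 : ∀ᶠ z in 𝓝 z0, ‖z - z0‖ < 1 / (2 * D') := by
    have hcn : Continuous fun z : κ → L => ‖z - z0‖ := (continuous_id.sub continuous_const).norm
    refine (isOpen_lt hcn continuous_const).mem_nhds ?_
    show ‖z0 - z0‖ < 1 / (2 * D')
    rw [sub_self, norm_zero]
    positivity
  have hU4 : ∀ᶠ z in 𝓝 z0, ∀ k, ‖∑ f ∈ s k, c k f * (aeval z f - aeval z0 f -
      dif f z0 (z - z0))‖ ≤ D k * ‖z - z0‖ ^ 2 := eventually_all.2 hD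
  refine ⟨_, (hU1.and (hU2.and (hU3.and hU4))), D' * (2 * S) ^ 2 + S + 1, (j, z0, α, β),
    by positivity, rfl, ?_, ?_⟩
  · refine ⟨hz0, ?_, ?_, fun k => ⟨halg k, ?_, ?_⟩⟩
    · show α j = 0
      simp only [α, if_true]
    · show β j = 0
      simp only [β, if_true]
    · show IsAlgebraic K (α k)
      simp only [α]; split_ifs
      · exact isAlgebraic_zero
      · exact hsumalg k a halga
    · show IsAlgebraic K (β k)
      simp only [β]; split_ifs
      · exact isAlgebraic_zero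
      · exact hsumalg k b halgb
  · rintro z ⟨h1, h2, h3, h4⟩ hzj hzn hzJ v₁ v₂ hv₁ hv₂ k
    let μ : ℝ := max ‖v₁‖ ‖v₂‖
    have hμ0 : 0 ≤ μ := le_max_of_le_left (norm_nonneg _)
    have hv₁1 : ‖v₁‖ ≤ 1 := norm_upper (algebraMap K L c₁) v₁ e₁ hc₁' (by rw [← hv₁]; exact h1)
    have hv₂1 : ‖v₂‖ ≤ 1 := norm_upper (algebraMap K L c₂) v₂ e₂ hc₂' (by rw [← hv₂]; exact h2)
    have hv₁μ : ‖v₁‖ ≤ μ := le_max_left _ _
    have hv₂μ : ‖v₂‖ ≤ μ := le_max_right _ _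
    -- values of the polynomials
    have hpow : ∀ (v : L) (e : ℕ), ‖v‖ ≤ 1 → ‖v‖ ≤ μ → 1 ≤ e → e ≠ 1 → ‖v‖ ^ e ≤ μ ^ 2 := by
      intro v e hv1 hvμ he he1
      calc ‖v‖ ^ e ≤ ‖v‖ ^ 2 := pow_le_pow_of_le_one (norm_nonneg _) hv1 (by omega)
        _ ≤ μ ^ 2 := by gcongr
    have hpow1 : ∀ (v : L) (e : ℕ), ‖v‖ ≤ 1 → ‖v‖ ≤ μ → 1 ≤ e → ‖v‖ ^ e ≤ μ := by
      intro v e hv1 hvμ he
      calc ‖v‖ ^ e ≤ ‖v‖ ^ 1 := pow_le_pow_of_le_one (norm_nonneg _) hv1 he
        _ ≤ μ := by rw [pow_one]; exact hvμ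
    have hval : ∀ f ∈ J ∪ {G₁, G₂}, ‖aeval z f - a f * v₁ - b f * v₂‖ ≤ E * μ ^ 2 ∧
        ‖aeval z f‖ ≤ E * μ := by
      intro f hf
      by_cases hfJ : f ∈ J
      · have h5 : aeval z f = 0 := hzJ f hfJ
        have ha0 : a f = 0 := by simp [a, hfJ]
        have hb0 : b f = 0 := by simp [b, hfJ]
        rw [h5, ha0, hb0]
        simp only [zero_mul, sub_zero, norm_zero]
        exact ⟨by positivity, by positivity⟩
      · by_cases hf1 : f = G₁
        · have hb0 : b f = 0 := by simp [b, hf1]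
          rw [hb0, zero_mul, sub_zero, hf1, hv₁]
          constructor
          · by_cases h1e : e₁ = 1
            · have ha1 : a G₁ = algebraMap K L c₁ := by
                have hG₁J : G₁ ∉ J := hf1 ▸ hfJ
                simp [a, h1e, hG₁J]
              rw [ha1, h1e, pow_one, sub_self, norm_zero]
              positivity
            · have ha0 : a G₁ = 0 := by simp [a, h1e]
              rw [ha0, zero_mul, sub_zero, norm_mul, norm_pow]
              refine mul_le_mul (le_add_of_nonneg_right (norm_nonneg _))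
                (hpow v₁ e₁ hv₁1 hv₁μ he₁ h1e) (by positivity) hE0.le
          · rw [norm_mul, norm_pow]
            exact mul_le_mul (le_add_of_nonneg_right (norm_nonneg _))
              (hpow1 v₁ e₁ hv₁1 hv₁μ he₁) (by positivity) hE0.le
        · have hf2 : f = G₂ := by
            rcases hf with hf | hf | hf
            · exact absurd hf hfJ
            · exact absurd hf hf1
            · exact hf
          have ha0 : a f = 0 := by simp [a, hf1]
          rw [ha0, zero_mul, sub_zero]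
          constructor
          · by_cases h1e : e₂ = 1
            · have hb1 : b f = algebraMap K L c₂ := by
                simp only [b]; rw [if_pos ⟨hfJ, hf1, hf2, h1e⟩]
              rw [hb1, hf2, hv₂, h1e, pow_one, sub_self, norm_zero]
              positivity
            · have hb0 : b f = 0 := by simp [b, h1e]
              rw [hb0, zero_mul, sub_zero, hf2, hv₂, norm_mul, norm_pow]
              refine mul_le_mul (le_add_of_nonneg_left (norm_nonneg _))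
                (hpow v₂ e₂ hv₂1 hv₂μ he₂ h1e) (by positivity) hE0.le
          · rw [hf2, hv₂, norm_mul, norm_pow]
            exact mul_le_mul (le_add_of_nonneg_left (norm_nonneg _))
              (hpow1 v₂ e₂ hv₂1 hv₂μ he₂) (by positivity) hE0.le
    -- the linear identity
    have hξ : ∀ k, ‖(z - z0) k - ∑ f ∈ s k, c k f * aeval z f‖ ≤ D' * ‖z - z0‖ ^ 2 := by
      intro k
      have h5 := hv k (z - z0)
      have h6 : (z - z0) j = 0 := by rw [Pi.sub_apply, hzj, hz0, sub_self]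
      rw [h6, mul_zero, sub_zero] at h5
      have h7 : ∑ f ∈ s k, c k f * (aeval z f - aeval z0 f - dif f z0 (z - z0)) =
          ∑ f ∈ s k, c k f * aeval z f - (z - z0) k := by
        rw [h5, ← Finset.sum_sub_distrib]
        refine Finset.sum_congr rfl fun f hf => ?_
        rw [hOn f (hs k hf)]; ring
      have h8 := h4 k
      rw [h7, norm_sub_rev] at h8
      exact h8.trans (mul_le_mul_of_nonneg_right (hDD' k) (by positivity))
    have hξn : ‖z - z0‖ ≤ 2 * S * μ := by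
      have h5 : ‖z - z0‖ ≤ D' * ‖z - z0‖ ^ 2 + S * μ := by
        rw [pi_norm_le_iff_of_nonneg (by positivity)]
        intro k
        have h6 : (z - z0) k = ((z - z0) k - ∑ f ∈ s k, c k f * aeval z f) +
            ∑ f ∈ s k, c k f * aeval z f := by ring
        rw [h6]
        refine (norm_add_le _ _).trans (add_le_add (hξ k) ?_)
        exact hSk k _ μ hμ0 fun f hf => (hval f (hs k hf)).2
      have h6 : D' * ‖z - z0‖ ^ 2 ≤ ‖z - z0‖ / 2 := by
        have h7 : D' * ‖z - z0‖ ≤ 1 / 2 := by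
          rw [lt_div_iff₀ (by positivity)] at h3
          linarith
        nlinarith [norm_nonneg (z - z0)]
      linarith
    have hfin : D' * ‖z - z0‖ ^ 2 ≤ D' * (2 * S) ^ 2 * μ ^ 2 := by
      have h5 : ‖z - z0‖ ^ 2 ≤ (2 * S * μ) ^ 2 := by gcongr
      nlinarith
    show ‖z k - z0 k - α k * v₁ - β k * v₂‖ ≤ (D' * (2 * S) ^ 2 + S + 1) * μ ^ 2
    by_cases hkj : k = j
    · have h5 : α k = 0 := by simp [α, hkj]
      have h6 : β k = 0 := by simp [β, hkj]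
      rw [h5, h6, hkj, hzj, hz0, sub_self, zero_mul, zero_mul, sub_zero, sub_zero, norm_zero]
      positivity
    · have h5 : α k = ∑ f ∈ s k, c k f * a f := by simp [α, hkj]
      have h6 : β k = ∑ f ∈ s k, c k f * b f := by simp [β, hkj]
      have h7 : z k - z0 k - α k * v₁ - β k * v₂ =
          ((z - z0) k - ∑ f ∈ s k, c k f * aeval z f) +
          ∑ f ∈ s k, c k f * (aeval z f - a f * v₁ - b f * v₂) := by
        rw [h5, h6, Pi.sub_apply]
        simp only [mul_sub, Finset.sum_sub_distrib, Finset.sum_mul]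
        have h8 : ∑ f ∈ s k, c k f * (a f * v₁) = ∑ f ∈ s k, c k f * a f * v₁ :=
          Finset.sum_congr rfl fun f _ => by ring
        have h9 : ∑ f ∈ s k, c k f * (b f * v₂) = ∑ f ∈ s k, c k f * b f * v₂ :=
          Finset.sum_congr rfl fun f _ => by ring
        rw [h8, h9]; ring
      rw [h7]
      have h8 := hSk k (fun f => aeval z f - a f * v₁ - b f * v₂) (μ ^ 2) (by positivity)
        fun f hf => (hval f (hs k hf)).1
      refine (norm_add_le _ _).trans ((add_le_add ((hξ k).trans hfin) h8).trans ?_)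
      nlinarith [sq_nonneg μ]

/-- the compactness argument -/
lemma loc_chart [CharZero K] [ProperSpace L] (J : Set (MvPolynomial κ K)) (G₁ G₂ : MvPolynomial κ K)
    (e₁ e₂ : ℕ)
    (he₁ : 1 ≤ e₁) (he₂ : 1 ≤ e₂) (c₁ c₂ : K) (hc₁ : c₁ ≠ 0) (hc₂ : c₂ ≠ 0)
    (hJac : ∀ A : κ → L, A ≠ 0 → OnV (J ∪ {G₁, G₂}) A → Jac (J ∪ {G₁, G₂}) A) (j : κ) :
    ∃ (C : ℝ) (Ty : Finset (κ × (κ → L) × (κ → L) × (κ → L))), 0 < C ∧
      (∀ t ∈ Ty, t.1 = j ∧ ValidTy K t) ∧
      ∀ z : κ → L, z j = 1 → ‖z‖ ≤ 1 → OnV J z → ∃ t ∈ Ty, LocEst G₁ G₂ e₁ e₂ c₁ c₂ C t z := by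
  classical
  have hK : IsCompact (Metric.closedBall (0 : κ → L) 1 ∩ {z | z j = 1}) :=
    (isCompact_closedBall _ _).inter_right (isClosed_eq (continuous_apply j) continuous_const)
  have hmono : ∀ (C C' : ℝ) (t : κ × (κ → L) × (κ → L) × (κ → L)) (z : κ → L), C ≤ C' →
      LocEst G₁ G₂ e₁ e₂ c₁ c₂ C t z → LocEst G₁ G₂ e₁ e₂ c₁ c₂ C' t z := by
    intro C C' t z hCC' h v₁ v₂ h1 h2 k
    exact (h v₁ v₂ h1 h2 k).trans (mul_le_mul_of_nonneg_right hCC' (by positivity))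
  have main := hK.induction_on (p := fun s => ∃ (C : ℝ)
      (Ty : Finset (κ × (κ → L) × (κ → L) × (κ → L))), 0 < C ∧
      (∀ t ∈ Ty, t.1 = j ∧ ValidTy K t) ∧
      ∀ z ∈ s, z j = 1 → ‖z‖ ≤ 1 → OnV J z → ∃ t ∈ Ty, LocEst G₁ G₂ e₁ e₂ c₁ c₂ C t z)
    ⟨1, ∅, one_pos, fun t ht => absurd ht (Finset.notMem_empty t), fun z hz => absurd hz id⟩
    (fun s t hst ⟨C, Ty, h1, h2, h3⟩ => ⟨C, Ty, h1, h2, fun z hz => h3 z (hst hz)⟩)
    (fun s t ⟨C, Ty, h1, h2, h3⟩ ⟨C', Ty', h1', h2', h3'⟩ => by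
      refine ⟨max C C', Ty ∪ Ty', lt_max_of_lt_left h1, ?_, ?_⟩
      · intro t ht
        rcases Finset.mem_union.1 ht with ht | ht
        · exact h2 t ht
        · exact h2' t ht
      · intro z hz hzj hzn hzJ
        rcases hz with hz | hz
        · obtain ⟨t, ht, ht'⟩ := h3 z hz hzj hzn hzJ
          exact ⟨t, Finset.mem_union_left _ ht, hmono _ _ t z (le_max_left _ _) ht'⟩
        · obtain ⟨t, ht, ht'⟩ := h3' z hz hzj hzn hzJ
          exact ⟨t, Finset.mem_union_right _ ht, hmono _ _ t z (le_max_right _ _) ht'⟩)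
    (by
      rintro z0 ⟨hz0n, hz0j⟩
      have hz0j' : z0 j = 1 := hz0j
      by_cases hJ0 : OnV J z0
      · have hloc : ∃ U ∈ 𝓝 z0, ∃ (C : ℝ) (t : κ × (κ → L) × (κ → L) × (κ → L)), 0 < C ∧
            t.1 = j ∧ ValidTy K t ∧
            ∀ z ∈ U, z j = 1 → ‖z‖ ≤ 1 → OnV J z → LocEst G₁ G₂ e₁ e₂ c₁ c₂ C t z := by
          by_cases hG : aeval z0 G₁ ≠ 0 ∨ aeval z0 G₂ ≠ 0
          · exact loc_point_b J G₁ G₂ e₁ e₂ he₁ he₂ c₁ c₂ hc₁ hc₂ j z0 hG
          · push Not at hG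
            have hOn : OnV (J ∪ {G₁, G₂}) z0 := by
              intro f hf
              rcases hf with hf | hf | hf
              · exact hJ0 f hf
              · rw [hf]; exact hG.1
              · rw [Set.mem_singleton_iff.1 hf]; exact hG.2
            have hz00 : z0 ≠ 0 := by
              rintro rfl
              exact zero_ne_one hz0j'
            exact loc_point_c J G₁ G₂ e₁ e₂ he₁ he₂ c₁ c₂ hc₁ hc₂ j z0 hz0j' hOn
              (hJac z0 hz00 hOn)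
        obtain ⟨U, hU, C, t, hC, htj, htv, hest⟩ := hloc
        refine ⟨U, mem_nhdsWithin_of_mem_nhds hU, C, {t}, hC, ?_, ?_⟩
        · intro t' ht'
          rw [Finset.mem_singleton.1 ht']
          exact ⟨htj, htv⟩
        · intro z hz hzj hzn hzJ
          exact ⟨t, Finset.mem_singleton_self t, hest z hz hzj hzn hzJ⟩
      · refine ⟨{z | OnV J z}ᶜ, mem_nhdsWithin_of_mem_nhds
          ((isClosed_onV J).isOpen_compl.mem_nhds hJ0), 1, ∅, one_pos,
          fun t ht => absurd ht (Finset.notMem_empty t), ?_⟩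
        intro z hz _ _ hzJ
        exact absurd hzJ hz)
  obtain ⟨C, Ty, h1, h2, h3⟩ := main
  refine ⟨C, Ty, h1, h2, fun z hzj hzn hzJ => h3 z ⟨?_, hzj⟩ hzj hzn hzJ⟩
  rwa [mem_closedBall_zero_iff]

end loc

/-- LOC -/
theorem loc {K : Type} [Field K] [CharZero K] {L : Type} [NontriviallyNormedField L] [ProperSpace L] [Algebra K L]
    {κ : Type} [Fintype κ] [DecidableEq κ] (J : Set (MvPolynomial κ K))
    (hJh : ∀ f ∈ J, ∃ e, f.IsHomogeneous e)
    (G₁ G₂ : MvPolynomial κ K) (e₁ e₂ : ℕ) (he₁ : 1 ≤ e₁) (he₂ : 1 ≤ e₂)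
    (hG₁ : G₁.IsHomogeneous e₁) (hG₂ : G₂.IsHomogeneous e₂)
    (c₁ c₂ : K) (hc₁ : c₁ ≠ 0) (hc₂ : c₂ ≠ 0)
    (hJac : ∀ A : κ → L, A ≠ 0 → OnV (J ∪ {G₁, G₂}) A → Jac (J ∪ {G₁, G₂}) A) :
    ∃ (C : ℝ) (Ty : Finset (κ × (κ → L) × (κ → L) × (κ → L))), 0 < C ∧
      (∀ t ∈ Ty, t.2.1 t.1 = 1 ∧ t.2.2.1 t.1 = 0 ∧ t.2.2.2 t.1 = 0 ∧
        ∀ k, IsAlgebraic K (t.2.1 k) ∧ IsAlgebraic K (t.2.2.1 k) ∧ IsAlgebraic K (t.2.2.2 k)) ∧
      ∀ x : κ → L, x ≠ 0 → OnV J x → ∀ u₁ u₂ : L,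
        aeval x G₁ = algebraMap K L c₁ * u₁ ^ e₁ → aeval x G₂ = algebraMap K L c₂ * u₂ ^ e₂ →
        ∃ t ∈ Ty, ∀ k, ‖x k - t.2.1 k * x t.1 - t.2.2.1 k * u₁ - t.2.2.2 k * u₂‖ * ‖x‖ ≤
          C * max ‖u₁‖ ‖u₂‖ ^ 2 := by
  classical
  choose C Ty hC hTy hest using loc_chart J G₁ G₂ e₁ e₂ he₁ he₂ c₁ c₂ hc₁ hc₂ hJac
  have hCsum : ∀ j, C j ≤ ∑ j, C j + 1 := by
    intro j
    have := Finset.single_le_sum (f := C) (fun j _ => (hC j).le) (Finset.mem_univ j)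
    linarith
  refine ⟨∑ j, C j + 1, Finset.univ.biUnion Ty, ?_, ?_, ?_⟩
  · have := Finset.sum_nonneg fun j (_ : j ∈ Finset.univ) => (hC j).le
    linarith
  · intro t ht
    obtain ⟨j, _, htj⟩ := Finset.mem_biUnion.1 ht
    exact (hTy j t htj).2
  · intro x hx hxJ u₁ u₂ hu₁ hu₂
    obtain ⟨j, hj⟩ := exists_norm_eq x hx
    have hxn : 0 < ‖x‖ := norm_pos_iff.2 hx
    have hxj : x j ≠ 0 := by
      rw [← norm_pos_iff, hj]; exact hxn
    obtain ⟨t, ht, hte⟩ := hest j ((x j)⁻¹ • x) (by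
      rw [Pi.smul_apply, smul_eq_mul, inv_mul_cancel₀ hxj]) (by
      rw [norm_smul, norm_inv, hj, inv_mul_cancel₀ hxn.ne'])
      (onV_smul J hJh _ x hxJ)
    refine ⟨t, Finset.mem_biUnion.2 ⟨j, Finset.mem_univ _, ht⟩, ?_⟩
    have htj : t.1 = j := (hTy j t ht).1
    intro k
    have h1 := hte ((x j)⁻¹ * u₁) ((x j)⁻¹ * u₂) (by
      rw [aeval_smul_hom _ _ hG₁, hu₁, mul_pow]; ring) (by
      rw [aeval_smul_hom _ _ hG₂, hu₂, mul_pow]; ring) k
    rw [Pi.smul_apply, smul_eq_mul] at h1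
    have h2 : x k - t.2.1 k * x t.1 - t.2.2.1 k * u₁ - t.2.2.2 k * u₂ =
        x j * ((x j)⁻¹ * x k - t.2.1 k - t.2.2.1 k * ((x j)⁻¹ * u₁) -
          t.2.2.2 k * ((x j)⁻¹ * u₂)) := by
      rw [htj]
      field_simp
    have h3 : max ‖(x j)⁻¹ * u₁‖ ‖(x j)⁻¹ * u₂‖ = ‖x‖⁻¹ * max ‖u₁‖ ‖u₂‖ := by
      rw [norm_mul, norm_mul, norm_inv, hj, mul_max_of_nonneg _ _ (inv_nonneg.2 hxn.le)]
    rw [h3] at h1
    rw [h2, norm_mul, hj]
    calc ‖x‖ * ‖(x j)⁻¹ * x k - t.2.1 k - t.2.2.1 k * ((x j)⁻¹ * u₁) -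
          t.2.2.2 k * ((x j)⁻¹ * u₂)‖ * ‖x‖
        ≤ ‖x‖ * (C j * (‖x‖⁻¹ * max ‖u₁‖ ‖u₂‖) ^ 2) * ‖x‖ := by gcongr
      _ = C j * max ‖u₁‖ ‖u₂‖ ^ 2 := by field_simp
      _ ≤ (∑ j, C j + 1) * max ‖u₁‖ ‖u₂‖ ^ 2 := by
          gcongr
          exact hCsum j

end Pool.Agent.Helper81.Sub
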