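import Mathlib

open MeasureTheory Module Filter Topology
open scoped ENNReal InnerProductSpace

namespace Pool.Agent.Skew

section PWAbstract

variable {G H : Type*} [Group G] [NormedAddCommGroup H] [InnerProductSpace ℂ H]

/-- `W` is invariant under the representation `π`. -/
def PWInv (π : G →* (H →L[ℂ] H)) (W : Submodule ℂ H) : Prop := ∀ g, ∀ w ∈ W, π g w ∈ W

/-- finite-dimensional invariant subspace without nonzero fixed vector, which has no invariant
line or is one-dimensional. -/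
structure PWGood (π : G →* (H →L[ℂ] H)) (W : Submodule ℂ H) : Prop where
  fd : FiniteDimensional ℂ W
  inv : PWInv π W
  nofix : ∀ w ∈ W, (∀ g, π g w = w) → w = 0
  alt : (¬ ∃ v ∈ W, v ≠ 0 ∧ ∀ g, ∃ α : ℂ, π g v = α • v) ∨ finrank ℂ W = 1

theorem PWGood_bot (π : G →* (H →L[ℂ] H)) : PWGood π ⊥ where
  fd := inferInstance
  inv := by
    intro g w hw
    rw [Submodule.mem_bot] at hw ⊢
    rw [hw, map_zero]
  nofix := by
    intro w hw _
    exact (Submodule.mem_bot ℂ).1 hw
  alt := by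
    left
    rintro ⟨v, hv, hv0, -⟩
    exact hv0 ((Submodule.mem_bot ℂ).1 hv)

/-- a unitary representation preserves inner products -/
theorem pw_inner (π : G →* (H →L[ℂ] H)) (hu : ∀ g v, ‖π g v‖ = ‖v‖) (g : G) (x y : H) :
    ⟪π g x, π g y⟫_ℂ = ⟪x, y⟫_ℂ := by
  let e : H →ₗᵢ[ℂ] H := ⟨(π g).toLinearMap, hu g⟩
  exact e.inner_map_map x y

theorem pw_inner_inv (π : G →* (H →L[ℂ] H)) (hu : ∀ g v, ‖π g v‖ = ‖v‖) (g : G) (x y : H) :
    ⟪x, π g y⟫_ℂ = ⟪π g⁻¹ x, y⟫_ℂ := by
  rw [← pw_inner π hu g (π g⁻¹ x) y, ← mul_apply_eq_comp, ← map_mul,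
    mul_inv_cancel, map_one]
  rfl

theorem pw_mul_apply (π : G →* (H →L[ℂ] H)) (g h : G) (x : H) :
    π (g * h) x = π g (π h x) := by
  rw [map_mul]; rfl

theorem pw_inv_apply (π : G →* (H →L[ℂ] H)) (g : G) (x : H) :
    π g (π g⁻¹ x) = x := by
  rw [← pw_mul_apply, mul_inv_cancel, map_one]; rfl

/-- the orthogonal complement of an invariant subspace is invariant -/
theorem pw_inv_orth (π : G →* (H →L[ℂ] H)) (hu : ∀ g v, ‖π g v‖ = ‖v‖) {W : Submodule ℂ H}
    (hW : PWInv π W) : PWInv π Wᗮ := by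
  intro g u hu'
  rw [Submodule.mem_orthogonal] at hu' ⊢
  intro w hw
  rw [pw_inner_inv π hu]
  exact hu' _ (hW _ _ hw)

end PWAbstract

section PWCompact

variable {G H : Type*} [Group G] [TopologicalSpace G] [IsTopologicalGroup G] [CompactSpace G]
  [T2Space G] [SecondCountableTopology G] [MeasurableSpace G] [BorelSpace G]
  [NormedAddCommGroup H] [InnerProductSpace ℂ H] [CompleteSpace H]

/-- averaged rank one operator -/
noncomputable def pwK (ν : Measure G) (π : G →* (H →L[ℂ] H)) (v : H) : H →L[ℂ] H :=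
  ∫ g, InnerProductSpace.rankOne ℂ (π g v) (π g v) ∂ν

variable (ν : Measure G) [ν.IsHaarMeasure] [IsProbabilityMeasure ν]
  (π : G →* (H →L[ℂ] H)) (hc : ∀ v, Continuous fun g => π g v) (hu : ∀ g v, ‖π g v‖ = ‖v‖)

include hc in
theorem pw_cont_rankOne (v : H) :
    Continuous fun g => InnerProductSpace.rankOne ℂ (π g v) (π g v) := by
  have h1 : Continuous fun g => innerSL ℂ (π g v) := (innerSL ℂ).continuous.comp (hc v)
  exact (ContinuousLinearMap.smulRightL ℂ H H).continuous₂.comp (h1.prodMk (hc v))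

include hc in
theorem pw_integrable (v : H) :
    Integrable (fun g => InnerProductSpace.rankOne ℂ (π g v) (π g v)) ν :=
  (pw_cont_rankOne π hc v).integrable_of_hasCompactSupport (HasCompactSupport.of_compactSpace _)

include hc in
theorem pwK_apply (v u : H) : pwK ν π v u = ∫ g, ⟪π g v, u⟫_ℂ • π g v ∂ν := by
  unfold pwK
  rw [ContinuousLinearMap.integral_apply (pw_integrable ν π hc v)]
  rfl

include hc in
theorem pw_integrable' (v u : H) :
    Integrable (fun g => ⟪π g v, u⟫_ℂ • π g v) ν :=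
  (((hc v).inner continuous_const).smul (hc v)).integrable_of_hasCompactSupport
    (HasCompactSupport.of_compactSpace _)

include hc in
theorem pwK_inner (v x y : H) :
    ⟪x, pwK ν π v y⟫_ℂ = ∫ g, ⟪π g v, y⟫_ℂ * ⟪x, π g v⟫_ℂ ∂ν := by
  rw [pwK_apply ν π hc, ← integral_inner (pw_integrable' ν π hc v y)]
  refine integral_congr_ae (Eventually.of_forall fun g => ?_)
  simp only [inner_smul_right]

include hc in
theorem pwK_symm (v : H) : (pwK ν π v).IsSymmetric := by
  intro x y
  show ⟪pwK ν π v x, y⟫_ℂ = ⟪x, pwK ν π v y⟫_ℂ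
  rw [← inner_conj_symm, pwK_inner ν π hc, pwK_inner ν π hc, ← integral_conj]
  refine integral_congr_ae (Eventually.of_forall fun g => ?_)
  simp only [map_mul, inner_conj_symm]
  ring

include hc in
theorem pwK_compact (v : H) : IsCompactOperator (pwK ν π v) := by
  have hcl : IsClosed {f : H →L[ℂ] H | IsCompactOperator f} :=
    isClosed_setOfPred_isCompactOperator
  have hconv : Convex ℝ {f : H →L[ℂ] H | IsCompactOperator f} := by
    intro f hf g hg a b _ _ _
    have h1 : IsCompactOperator ((a : ℂ) • f : H →L[ℂ] H) := hf.smul (a : ℂ)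
    have h2 : IsCompactOperator ((b : ℂ) • g : H →L[ℂ] H) := hg.smul (b : ℂ)
    have h3 : IsCompactOperator ((a : ℂ) • f + (b : ℂ) • g : H →L[ℂ] H) := h1.add h2
    exact h3
  refine hconv.integral_mem hcl (Eventually.of_forall fun g => ?_) (pw_integrable ν π hc v)
  show IsCompactOperator (InnerProductSpace.rankOne ℂ (π g v) (π g v))
  rw [InnerProductSpace.rankOne_def']
  have h1 : IsCompactOperator (ContinuousLinearMap.toSpanSingleton ℂ (π g v)) :=
    isCompactOperator_of_locallyCompactSpace_rng _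
  exact h1.comp_clm (innerSL ℂ (π g v))

include hc hu in
theorem pwK_comm (v : H) (h : G) (u : H) : π h (pwK ν π v u) = pwK ν π v (π h u) := by
  rw [pwK_apply ν π hc, pwK_apply ν π hc, ← ContinuousLinearMap.integral_comp_comm _
    (pw_integrable' ν π hc v u)]
  rw [← integral_mul_left_eq_self (fun g => ⟪π g v, π h u⟫_ℂ • π g v) h]
  refine integral_congr_ae (Eventually.of_forall fun g => ?_)
  simp only [map_smul]
  rw [pw_mul_apply, pw_inner π hu]

include hc hu in
theorem pwK_self_ne (v : H) (h : pwK ν π v v = 0) : v = 0 := by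
  have h1 : ∫ g, ‖⟪π g v, v⟫_ℂ‖ ^ 2 ∂ν = 0 := by
    have h2 := pwK_inner ν π hc v v v
    rw [h, inner_zero_right] at h2
    have h3 : ((∫ g, ‖⟪π g v, v⟫_ℂ‖ ^ 2 ∂ν : ℝ) : ℂ) = 0 := by
      rw [← integral_complex_ofReal, h2]
      refine integral_congr_ae (Eventually.of_forall fun g => ?_)
      simp only
      rw [← inner_conj_symm v (π g v), Complex.mul_conj, Complex.normSq_eq_norm_sq]
    exact_mod_cast h3
  have hcont : Continuous fun g => ‖⟪π g v, v⟫_ℂ‖ ^ 2 :=
    ((hc v).inner continuous_const).norm.pow 2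
  have h4 : (fun g => ‖⟪π g v, v⟫_ℂ‖ ^ 2) =ᵐ[ν] 0 :=
    (integral_eq_zero_iff_of_nonneg (fun g => by positivity)
      (hcont.integrable_of_hasCompactSupport (HasCompactSupport.of_compactSpace _))).1 h1
  have h5 : (fun g => ‖⟪π g v, v⟫_ℂ‖ ^ 2) = 0 :=
    (hcont.ae_eq_iff_eq ν continuous_zero).1 h4
  have h6 := congrFun h5 1
  simp only [map_one, Pi.zero_apply] at h6
  have h7 : ‖⟪v, v⟫_ℂ‖ ^ 2 = 0 := h6
  have h8 : ⟪v, v⟫_ℂ = 0 := by simpa using h7
  exact inner_self_eq_zero.1 h8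

include ν hc hu in
/-- **Peter-Weyl**: a vector orthogonal to all finite-dimensional invariant subspaces is zero. -/
theorem pw_main (u : H) (h : ∀ W : Submodule ℂ H, FiniteDimensional ℂ W → PWInv π W → u ∈ Wᗮ) :
    u = 0 := by
  apply pwK_self_ne ν π hc hu u
  have h1 := ContinuousLinearMap.orthogonalComplement_iSup_eigenspaces_eq_bot
    (pwK_compact ν π hc u) (pwK_symm ν π hc u)
  rw [← Submodule.mem_bot ℂ, ← h1, ← Submodule.iInf_orthogonal, Submodule.mem_iInf]
  intro κ
  rw [Submodule.mem_orthogonal]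
  intro w hw
  rw [End.mem_eigenspace_iff] at hw
  have hw' : pwK ν π u w = κ • w := hw
  have hs : ⟪pwK ν π u w, u⟫_ℂ = ⟪w, pwK ν π u u⟫_ℂ := pwK_symm ν π hc u w u
  rw [← hs, hw', inner_smul_left]
  by_cases hκ : κ = 0
  · simp [hκ]
  · have h2 : u ∈ (End.eigenspace (pwK ν π u : End ℂ H) κ)ᗮ := by
      apply h _ (ContinuousLinearMap.finite_dimensional_eigenspace (pwK_compact ν π hc u) κ hκ)
      intro g w' hw'
      rw [End.mem_eigenspace_iff] at hw' ⊢
      have e1 : pwK ν π u w' = κ • w' := hw'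
      show pwK ν π u (π g w') = κ • π g w'
      rw [← pwK_comm ν π hc hu, e1, map_smul]
    rw [Submodule.mem_orthogonal] at h2
    rw [h2 w (End.mem_eigenspace_iff.2 hw), mul_zero]


end PWCompact

section PWDecomp

variable {G H : Type*} [Group G] [NormedAddCommGroup H] [InnerProductSpace ℂ H]
  (π : G →* (H →L[ℂ] H)) (hu : ∀ g v, ‖π g v‖ = ‖v‖)

include hu in
/-- if `u` is orthogonal to all good subspaces and to all fixed vectors, it is orthogonal to all
finite-dimensional invariant subspaces -/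
theorem pw_orth_all (u : H) (h1 : ∀ W, PWGood π W → u ∈ Wᗮ)
    (h2 : ∀ v, (∀ g, π g v = v) → ⟪v, u⟫_ℂ = 0) :
    ∀ n : ℕ, ∀ W : Submodule ℂ H, FiniteDimensional ℂ W → PWInv π W → finrank ℂ W = n →
      u ∈ Wᗮ := by
  intro n
  induction n using Nat.strong_induction_on with
  | _ n ih =>
    intro W hfd hinv hn
    by_cases hl : ∃ v ∈ W, v ≠ 0 ∧ ∀ g, ∃ α : ℂ, π g v = α • v
    · obtain ⟨v, hvW, hv0, hv⟩ := hl
      -- u is orthogonal to v
      have hline : PWInv π (ℂ ∙ v) := by
        intro g w hw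
        obtain ⟨a, rfl⟩ := Submodule.mem_span_singleton.1 hw
        obtain ⟨α, hα⟩ := hv g
        rw [map_smul, hα]
        exact Submodule.smul_mem _ _ (Submodule.smul_mem _ _ (Submodule.mem_span_singleton_self v))
      have huv : ⟪v, u⟫_ℂ = 0 := by
        by_cases hfix : ∀ g, π g v = v
        · exact h2 v hfix
        · have hg : PWGood π (ℂ ∙ v) := by
            refine ⟨inferInstance, hline, ?_, Or.inr (finrank_span_singleton hv0)⟩
            intro w hw hwf
            obtain ⟨a, rfl⟩ := Submodule.mem_span_singleton.1 hw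
            by_contra ha
            have ha0 : a ≠ 0 := fun h0 => ha (by rw [h0, zero_smul])
            apply hfix
            intro g
            have := hwf g
            rw [map_smul] at this
            exact smul_right_injective H ha0 this
          have := h1 _ hg
          rw [Submodule.mem_orthogonal] at this
          exact this v (Submodule.mem_span_singleton_self v)
      -- the rest
      have hW'inv : PWInv π (W ⊓ (ℂ ∙ v)ᗮ) := by
        intro g w hw
        exact ⟨hinv g w hw.1, pw_inv_orth π hu hline g w hw.2⟩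
      have hlt : W ⊓ (ℂ ∙ v)ᗮ < W := by
        refine lt_of_le_of_ne inf_le_left fun he => ?_
        have : v ∈ W ⊓ (ℂ ∙ v)ᗮ := by rw [he]; exact hvW
        have h3 : v ∈ (ℂ ∙ v)ᗮ := this.2
        rw [Submodule.mem_orthogonal] at h3
        exact hv0 (inner_self_eq_zero.1 (h3 v (Submodule.mem_span_singleton_self v)))
      have hfd' : FiniteDimensional ℂ (W ⊓ (ℂ ∙ v)ᗮ : Submodule ℂ H) :=
        Submodule.finiteDimensional_of_le inf_le_left
      have h3 := ih _ (by rw [← hn]; exact Submodule.finrank_lt_finrank_of_lt hlt) _ hfd' hW'inv rfl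
      rw [Submodule.mem_orthogonal] at h3 ⊢
      intro w hw
      -- decompose w
      have hv2 : ⟪v, v⟫_ℂ ≠ 0 := fun h => hv0 (inner_self_eq_zero.1 h)
      have hw2 : w - (⟪v, w⟫_ℂ / ⟪v, v⟫_ℂ) • v ∈ W ⊓ (ℂ ∙ v)ᗮ := by
        refine ⟨Submodule.sub_mem _ hw (Submodule.smul_mem _ _ hvW), ?_⟩
        show w - (⟪v, w⟫_ℂ / ⟪v, v⟫_ℂ) • v ∈ (ℂ ∙ v)ᗮ
        rw [Submodule.mem_orthogonal_singleton_iff_inner_right, inner_sub_right,
          inner_smul_right, div_mul_cancel₀ _ hv2, sub_self]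
      have h4 := h3 _ hw2
      rw [inner_sub_left, inner_smul_left, huv, mul_zero, sub_zero] at h4
      exact h4
    · apply h1
      refine ⟨hfd, hinv, ?_, Or.inl hl⟩
      intro w hw hwf
      by_contra hw0
      exact hl ⟨w, hw, hw0, fun g => ⟨1, by rw [hwf g, one_smul]⟩⟩

variable [CompleteSpace H]

include hu in
/-- fixed vectors are orthogonal to good subspaces -/
theorem pw_good_fix (W : Submodule ℂ H) (hW : PWGood π W) (v : H) (hv : ∀ g, π g v = v) :
    v ∈ Wᗮ := by
  have := hW.fd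
  have h1 : W.starProjection v = 0 := by
    apply hW.nofix _ (Submodule.starProjection_apply_mem W v)
    intro g
    refine (Submodule.eq_starProjection_of_mem_orthogonal
      (hW.inv g _ (Submodule.starProjection_apply_mem W v)) ?_).symm
    have h2 : v - π g (W.starProjection v) = π g (v - W.starProjection v) := by
      rw [map_sub, hv g]
    rw [h2]
    exact pw_inv_orth π hu hW.inv g _ (Submodule.sub_starProjection_mem_orthogonal v)
  exact (Submodule.starProjection_apply_eq_zero_iff W).1 h1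


include hu in
/-- The unitary representation on a Euclidean space given by a good subspace. -/
theorem pw_rep [TopologicalSpace G] (hc : ∀ v, Continuous fun g => π g v)
    (W : Submodule ℂ H) (hW : PWGood π W) :
    ∃ (d : ℕ) (ρ : G →* (EuclideanSpace ℂ (Fin d) →L[ℂ] EuclideanSpace ℂ (Fin d)))
      (P : H →L[ℂ] EuclideanSpace ℂ (Fin d)), Continuous ρ ∧ (∀ g v, ‖ρ g v‖ = ‖v‖) ∧
      ((¬ ∃ v, v ≠ 0 ∧ ∀ g, ∃ α : ℂ, ρ g v = α • v) ∨ (d = 1 ∧ ∃ g, ρ g ≠ 1)) ∧
      (∀ g u, P (π g u) = ρ g (P u)) ∧ (∀ u, P u = 0 → u ∈ Wᗮ) := by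
  have := hW.fd
  let e : W ≃ₗᵢ[ℂ] EuclideanSpace ℂ (Fin (finrank ℂ W)) := (stdOrthonormalBasis ℂ W).repr
  let ι : EuclideanSpace ℂ (Fin (finrank ℂ W)) →L[ℂ] H :=
    W.subtypeL ∘L (e.symm.toContinuousLinearEquiv : EuclideanSpace ℂ (Fin (finrank ℂ W)) →L[ℂ] W)
  let P : H →L[ℂ] EuclideanSpace ℂ (Fin (finrank ℂ W)) :=
    (e.toContinuousLinearEquiv : W →L[ℂ] EuclideanSpace ℂ (Fin (finrank ℂ W))) ∘L
      W.orthogonalProjectionOnto
  have hι : ∀ x, ι x = (e.symm x : H) := fun x => rfl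
  have hP : ∀ u, P u = e (W.orthogonalProjectionOnto u) := fun u => rfl
  have hιW : ∀ x, ι x ∈ W := fun x => (e.symm x).2
  have hιP : ∀ u ∈ W, ι (P u) = u := by
    intro u hu'
    rw [hι, hP, LinearIsometryEquiv.symm_apply_apply]
    exact Submodule.starProjection_eq_self_iff.2 hu'
  have hPι : ∀ x, P (ι x) = x := by
    intro x
    rw [hι, hP, Submodule.orthogonalProjectionOnto_mem_subspace_eq_self,
      LinearIsometryEquiv.apply_symm_apply]
  have hιn : ∀ x, ‖ι x‖ = ‖x‖ := by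
    intro x
    rw [hι, ← Submodule.coe_norm, LinearIsometryEquiv.norm_map]
  have hPn : ∀ u ∈ W, ‖P u‖ = ‖u‖ := by
    intro u hu'
    rw [← hιn, hιP u hu']
  have hP0 : ∀ u, P u = 0 → u ∈ Wᗮ := by
    intro u hu'
    rw [hP, LinearIsometryEquiv.map_eq_zero_iff] at hu'
    exact (Submodule.orthogonalProjectionOnto_eq_zero_iff).1 hu'
  have hP0' : ∀ u ∈ Wᗮ, P u = 0 := by
    intro u hu'
    rw [hP, LinearIsometryEquiv.map_eq_zero_iff]
    exact (Submodule.orthogonalProjectionOnto_eq_zero_iff).2 hu'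
  let ρ : G →* (EuclideanSpace ℂ (Fin (finrank ℂ W)) →L[ℂ] EuclideanSpace ℂ (Fin (finrank ℂ W))) :=
    { toFun := fun g => P ∘L π g ∘L ι
      map_one' := by
        ext1 x
        show P (π 1 (ι x)) = x
        rw [map_one]
        exact hPι x
      map_mul' := by
        intro g h
        ext1 x
        show P (π (g * h) (ι x)) = P (π g (ι (P (π h (ι x)))))
        rw [hιP _ (hW.inv h _ (hιW x)), pw_mul_apply] }
  have hρ : ∀ g x, ρ g x = P (π g (ι x)) := fun g x => rfl
  have hιρ : ∀ g x, ι (ρ g x) = π g (ι x) := by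
    intro g x
    rw [hρ, hιP _ (hW.inv g _ (hιW x))]
  refine ⟨finrank ℂ W, ρ, P, ?_, ?_, ?_, ?_, hP0⟩
  · rw [continuous_clm_apply]
    intro y
    exact P.continuous.comp (hc (ι y))
  · intro g v
    rw [← hιn, hιρ, hu, hιn]
  · rcases hW.alt with h | h
    · left
      rintro ⟨v, hv0, hv⟩
      apply h
      refine ⟨ι v, hιW v, ?_, ?_⟩
      · intro h0
        apply hv0
        rw [← norm_eq_zero, ← hιn, h0, norm_zero]
      · intro g
        obtain ⟨α, hα⟩ := hv g
        exact ⟨α, by rw [← hιρ, hα, map_smul]⟩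
    · right
      refine ⟨h, ?_⟩
      by_contra hcon
      push Not at hcon
      have : Nontrivial W := by
        apply Module.nontrivial_of_finrank_pos (R := ℂ)
        rw [h]; exact Nat.one_pos
      obtain ⟨w, hw⟩ := exists_ne (0 : W)
      apply hw
      have := hW.nofix (w : H) w.2 (fun g => by
        have h1 : ι (ρ g (P w)) = π g w := by rw [hιρ, hιP _ w.2]
        rw [← h1, hcon g]
        exact hιP _ w.2)
      exact_mod_cast this
  · intro g u
    have h1 : u - ι (P u) ∈ Wᗮ := by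
      apply hP0
      rw [map_sub, hPι, sub_self]
    have h2 := hP0' _ (pw_inv_orth π hu hW.inv g _ h1)
    rw [map_sub, map_sub, sub_eq_zero] at h2
    rw [h2, hρ]

end PWDecomp

section PWAll

variable {G H : Type*} [Group G] [TopologicalSpace G] [IsTopologicalGroup G] [CompactSpace G]
  [T2Space G] [SecondCountableTopology G] [MeasurableSpace G] [BorelSpace G]
  [NormedAddCommGroup H] [InnerProductSpace ℂ H] [CompleteSpace H]
  [TopologicalSpace.SeparableSpace H]

theorem pw_abstract (ν : Measure G) [ν.IsHaarMeasure] [IsProbabilityMeasure ν]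
    (π : G →* (H →L[ℂ] H)) (hc : ∀ v, Continuous fun g => π g v) (hu : ∀ g v, ‖π g v‖ = ‖v‖) :
    ∃ (d : ℕ → ℕ) (ρ : ∀ j, G →* (EuclideanSpace ℂ (Fin (d j)) →L[ℂ] EuclideanSpace ℂ (Fin (d j))))
      (P : ∀ j, H →L[ℂ] EuclideanSpace ℂ (Fin (d j))), (∀ j, Continuous (ρ j)) ∧
      (∀ j g v, ‖ρ j g v‖ = ‖v‖) ∧
      (∀ j, (¬ ∃ v, v ≠ 0 ∧ ∀ g, ∃ α : ℂ, ρ j g v = α • v) ∨ (d j = 1 ∧ ∃ g, ρ j g ≠ 1)) ∧
      (∀ j g u, P j (π g u) = ρ j g (P j u)) ∧
      (∀ u, (∀ j, P j u = 0) → ∀ g, π g u = u) := by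
  classical
  let E : Set H := {w | ∃ W, PWGood π W ∧ w ∈ W}
  have hEne : E.Nonempty := ⟨0, ⊥, PWGood_bot π, Submodule.zero_mem _⟩
  have : Nonempty E := hEne.to_subtype
  have hsc : SecondCountableTopology H := UniformSpace.secondCountable_of_separable H
  let s : ℕ → E := TopologicalSpace.denseSeq E
  have hs : DenseRange s := TopologicalSpace.denseRange_denseSeq E
  choose W hW hsW using fun n => (s n).2
  choose d ρ P h1 h2 h3 h4 h5 using fun n => pw_rep π hu hc (W n) (hW n)
  refine ⟨d, ρ, P, h1, h2, h3, h4, ?_⟩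
  intro u hPu
  have hn : ∀ n, ⟪(s n : H), u⟫_ℂ = 0 := by
    intro n
    have := h5 n u (hPu n)
    rw [Submodule.mem_orthogonal] at this
    exact this _ (hsW n)
  have hE : ∀ w : E, ⟪(w : H), u⟫_ℂ = 0 := by
    have hcl : IsClosed {w : E | ⟪(w : H), u⟫_ℂ = 0} :=
      isClosed_eq (continuous_subtype_val.inner continuous_const) continuous_const
    intro w
    have : closure (Set.range s) ⊆ {w : E | ⟪(w : H), u⟫_ℂ = 0} := by
      apply hcl.closure_subset_iff.2
      rintro _ ⟨n, rfl⟩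
      exact hn n
    exact this (hs w)
  have hgood : ∀ V, PWGood π V → u ∈ Vᗮ := by
    intro V hV
    rw [Submodule.mem_orthogonal]
    intro w hw
    exact hE ⟨w, V, hV, hw⟩
  -- the space of fixed vectors
  let F : Submodule ℂ H := ⨅ g, LinearMap.ker ((π g - 1 : H →L[ℂ] H) : H →ₗ[ℂ] H)
  have hF : ∀ v, v ∈ F ↔ ∀ g, π g v = v := by
    intro v
    simp only [F, Submodule.mem_iInf, LinearMap.mem_ker]
    refine forall_congr' fun g => ?_
    show π g v - v = 0 ↔ _
    rw [sub_eq_zero]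
  have hFc : IsClosed (F : Set H) := by
    have : (F : Set H) = ⋂ g, {v | π g v = v} := by
      ext v
      simp only [SetLike.mem_coe, hF, Set.mem_iInter, Set.mem_ofPred_eq]
    rw [this]
    exact isClosed_iInter fun g => isClosed_eq (π g).continuous continuous_id
  have : CompleteSpace F := hFc.completeSpace_coe
  have hz : u - F.starProjection u = 0 := by
    apply pw_main ν π hc hu
    intro V hV hVi
    refine pw_orth_all π hu _ ?_ ?_ _ V hV hVi rfl
    · intro V' hV'
      refine Submodule.sub_mem _ (hgood V' hV') ?_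
      exact pw_good_fix π hu V' hV' _ ((hF _).1 (Submodule.starProjection_apply_mem F u))
    · intro v hv
      have := Submodule.sub_starProjection_mem_orthogonal (K := F) u
      rw [Submodule.mem_orthogonal] at this
      exact this v ((hF v).2 hv)
  have hz' : u ∈ F := by
    rw [sub_eq_zero] at hz
    rw [hz]
    exact Submodule.starProjection_apply_mem F u
  exact (hF u).1 hz'

end PWAll


section PWL2

variable {G : Type*} [Group G] [TopologicalSpace G] [IsTopologicalGroup G] [CompactSpace G]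
  [T2Space G] [SecondCountableTopology G] [MeasurableSpace G] [BorelSpace G]

/-- left translation on `L²` -/
noncomputable def pwL (ν : Measure G) [ν.IsHaarMeasure] [IsProbabilityMeasure ν] :
    G →* (Lp ℂ 2 ν →L[ℂ] Lp ℂ 2 ν) where
  toFun g := (Lp.compMeasurePreservingₗᵢ ℂ (fun y => g⁻¹ * y)
    (measurePreserving_mul_left ν g⁻¹)).toContinuousLinearMap
  map_one' := by
    ext1 u
    show Lp.compMeasurePreserving (fun y => (1 : G)⁻¹ * y) (measurePreserving_mul_left ν (1 : G)⁻¹) u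
      = u
    apply Lp.ext
    refine (Lp.coeFn_compMeasurePreserving _ _).trans ?_
    refine Eventually.of_forall fun y => ?_
    simp
  map_mul' g h := by
    ext1 u
    show Lp.compMeasurePreserving (fun y => (g * h)⁻¹ * y) (measurePreserving_mul_left ν (g * h)⁻¹) u
      = Lp.compMeasurePreserving (fun y => g⁻¹ * y) (measurePreserving_mul_left ν g⁻¹)
        (Lp.compMeasurePreserving (fun y => h⁻¹ * y) (measurePreserving_mul_left ν h⁻¹) u)
    rw [← Lp.compMeasurePreserving_comp_apply]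
    apply Lp.ext
    refine (Lp.coeFn_compMeasurePreserving _ _).trans
      (EventuallyEq.trans ?_ (Lp.coeFn_compMeasurePreserving _ _).symm)
    refine Eventually.of_forall fun y => ?_
    simp only [Function.comp_apply, mul_inv_rev, mul_assoc]

theorem pwL_apply (ν : Measure G) [ν.IsHaarMeasure] [IsProbabilityMeasure ν] (g : G)
    (u : Lp ℂ 2 ν) : pwL ν g u =
      Lp.compMeasurePreserving (fun y => g⁻¹ * y) (measurePreserving_mul_left ν g⁻¹) u := rfl

theorem pwL_norm (ν : Measure G) [ν.IsHaarMeasure] [IsProbabilityMeasure ν] (g : G)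
    (u : Lp ℂ 2 ν) : ‖pwL ν g u‖ = ‖u‖ := by
  rw [pwL_apply, Lp.norm_compMeasurePreserving]

theorem pwL_cont (ν : Measure G) [ν.IsHaarMeasure] [IsProbabilityMeasure ν] 
    (u : Lp ℂ 2 ν) : Continuous fun g => pwL ν g u := by
  have : Fact ((2 : ℝ≥0∞) ≠ ⊤) := ⟨by norm_num⟩
  have h1 : Continuous fun g : G => DomMulAct.mk g⁻¹ • u :=
    (DomMulAct.continuous_mk.comp continuous_inv).smul continuous_const
  exact h1

theorem pwL_fix (ν : Measure G) [ν.IsHaarMeasure] [IsProbabilityMeasure ν] 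
    (u : Lp ℂ 2 ν) (h : ∀ g, pwL ν g u = u) : ∃ c : ℂ, ∀ᵐ y ∂ν, u y = c := by
  have h1 : ∀ g : G, ∀ᵐ y ∂ν, u (g⁻¹ * y) = u y := by
    intro g
    have h2 := Lp.coeFn_compMeasurePreserving u (measurePreserving_mul_left ν g⁻¹)
    have h3 := h g
    rw [pwL_apply] at h3
    rw [h3] at h2
    filter_upwards [h2] with y hy
    exact hy.symm
  have hsm := (Lp.stronglyMeasurable u)
  have hmeas : MeasurableSet {p : G × G | u (p.1⁻¹ * p.2) = u p.2} :=
    measurableSet_eq_fun (hsm.measurable.comp (by fun_prop)) (hsm.measurable.comp (by fun_prop))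
  have h4 : ∀ᵐ p ∂(ν.prod ν), u (p.1⁻¹ * p.2) = u p.2 := by
    rw [Measure.ae_prod_iff_ae_ae hmeas]
    exact Eventually.of_forall h1
  have h5 : ∀ᵐ y ∂ν, ∀ᵐ g ∂ν, u (g⁻¹ * y) = u y := by
    have hmeas' : MeasurableSet {p : G × G | u (p.2⁻¹ * p.1) = u p.1} :=
      measurableSet_eq_fun (hsm.measurable.comp (by fun_prop)) (hsm.measurable.comp (by fun_prop))
    rw [← Measure.ae_prod_iff_ae_ae hmeas']
    have h6 := (Measure.measurePreserving_swap (μ := ν) (ν := ν)).quasiMeasurePreserving.ae h4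
    exact h6
  obtain ⟨y, hy⟩ := h5.exists
  refine ⟨u y, ?_⟩
  have hq : Measure.QuasiMeasurePreserving (fun z : G => y * z⁻¹) ν ν :=
    (measurePreserving_mul_left ν y).quasiMeasurePreserving.comp (quasiMeasurePreserving_inv ν)
  have h6 := hq.ae hy
  filter_upwards [h6] with z hz
  simpa using hz

/-- **Peter-Weyl separation.** -/
theorem peter_weyl_separation {G : Type*} [Group G] [TopologicalSpace G] [IsTopologicalGroup G]
    [CompactSpace G] [T2Space G] [SecondCountableTopology G] [MeasurableSpace G] [BorelSpace G]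
    (ν : Measure G) [ν.IsHaarMeasure] [IsProbabilityMeasure ν] :
    ∃ (d : ℕ → ℕ) (ρ : ∀ j, G →* (EuclideanSpace ℂ (Fin (d j)) →L[ℂ] EuclideanSpace ℂ (Fin (d j))))
      (P : ∀ j, Lp ℂ 2 ν →L[ℂ] EuclideanSpace ℂ (Fin (d j))),
      (∀ j, Continuous (ρ j)) ∧ (∀ j g v, ‖ρ j g v‖ = ‖v‖) ∧
      (∀ j, (¬ ∃ v, v ≠ 0 ∧ ∀ g, ∃ α : ℂ, ρ j g v = α • v) ∨ (d j = 1 ∧ ∃ g, ρ j g ≠ 1)) ∧
      (∀ j g (u : Lp ℂ 2 ν), P j (Lp.compMeasurePreserving (fun y => g⁻¹ * y)
        (measurePreserving_mul_left ν g⁻¹) u) = ρ j g (P j u)) ∧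
      (∀ u : Lp ℂ 2 ν, (∀ j, P j u = 0) → ∃ c : ℂ, ∀ᵐ y ∂ν, u y = c) := by
  have : Fact ((2 : ℝ≥0∞) ≠ ⊤) := ⟨by norm_num⟩
  obtain ⟨d, ρ, P, h1, h2, h3, h4, h5⟩ :=
    pw_abstract ν (pwL ν) (pwL_cont ν) (pwL_norm ν)
  exact ⟨d, ρ, P, h1, h2, h3, h4, fun u hu => pwL_fix ν u (h5 u hu)⟩

end PWL2

end Pool.Agent.Skew
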