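import Mathlib
import Pool.Agent.Helper81.SkewPW

open MeasureTheory Module Filter Topology
open scoped ENNReal InnerProductSpace

namespace Pool.Agent.Skew

theorem glue_ergodic_of_prod {X : Type*} [MeasurableSpace X] (μ : Measure X) [IsProbabilityMeasure μ]
    (T : X → X) (hT : MeasurePreserving T μ μ) (hwm : Ergodic (Prod.map T T) (μ.prod μ)) :
    Ergodic T μ :=
  (measurePreserving_fst (μ := μ) (ν := μ)).ergodic_of_ergodic_semiconj hwm hT.measurable
    (fun _ => rfl)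

/-- an `L²`-type eigenfunction of a weakly mixing map is constant -/
theorem glue_eigen_const {X : Type*} [MeasurableSpace X] (μ : Measure X) [IsProbabilityMeasure μ]
    (T : X → X) (hwm : Ergodic (Prod.map T T) (μ.prod μ))
    (z : ℂ) (hz : ‖z‖ = 1) (a : X → ℂ) (ha : Measurable a) (haT : ∀ᵐ x ∂μ, a (T x) = z * a x) :
    ∃ c : ℂ, ∀ᵐ x ∂μ, a x = c := by
  have h1 : ∀ᵐ p ∂(μ.prod μ), a (T p.1) = z * a p.1 :=
    (measurePreserving_fst (μ := μ) (ν := μ)).quasiMeasurePreserving.ae haT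
  have h2 : ∀ᵐ p ∂(μ.prod μ), a (T p.2) = z * a p.2 :=
    (measurePreserving_snd (μ := μ) (ν := μ)).quasiMeasurePreserving.ae haT
  have hb : Measurable fun p : X × X => a p.1 * (starRingEnd ℂ) (a p.2) :=
    (ha.comp measurable_fst).mul ((Complex.continuous_conj.measurable).comp (ha.comp measurable_snd))
  have hz' : z * (starRingEnd ℂ) z = 1 := by
    rw [Complex.mul_conj, Complex.normSq_eq_norm_sq, hz]; norm_num
  have h3 : (fun p : X × X => a p.1 * (starRingEnd ℂ) (a p.2)) ∘ (Prod.map T T) =ᵐ[μ.prod μ]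
      (fun p : X × X => a p.1 * (starRingEnd ℂ) (a p.2)) := by
    filter_upwards [h1, h2] with p hp1 hp2
    simp only [Function.comp_apply, Prod.map_fst, Prod.map_snd]
    rw [hp1, hp2, map_mul]
    calc z * a p.1 * ((starRingEnd ℂ) z * (starRingEnd ℂ) (a p.2))
        = (z * (starRingEnd ℂ) z) * (a p.1 * (starRingEnd ℂ) (a p.2)) := by ring
      _ = _ := by rw [hz', one_mul]
  obtain ⟨c, hc⟩ := hwm.ae_eq_const_of_ae_eq_comp_ae hb.aestronglyMeasurable h3
  -- swap to get: for a.e. x', for a.e. x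
  have hc' : ∀ᵐ p ∂(μ.prod μ), a p.2 * (starRingEnd ℂ) (a p.1) = c :=
    (Measure.measurePreserving_swap (μ := μ) (ν := μ)).quasiMeasurePreserving.ae hc
  have h4 := Measure.ae_ae_of_ae_prod hc'
  by_cases h0 : ∀ᵐ x ∂μ, a x = 0
  · exact ⟨0, h0⟩
  · have h5 : ∃ᵐ x ∂μ, ¬ a x = 0 := Filter.not_eventually.1 h0
    obtain ⟨x', hx'0, hx'⟩ := (h5.and_eventually h4).exists
    refine ⟨c / (starRingEnd ℂ) (a x'), ?_⟩
    filter_upwards [hx'] with x hx
    rw [eq_div_iff]
    · exact hx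
    · intro h; apply hx'0
      exact (map_eq_zero _).1 h

theorem glue_main {X : Type*} [MeasurableSpace X] (μ : Measure X) [IsProbabilityMeasure μ]
    (T : X → X) (hT : MeasurePreserving T μ μ) (hwm : Ergodic (Prod.map T T) (μ.prod μ))
    {G : Type*} [Group G] [TopologicalSpace G] [IsTopologicalGroup G] [CompactSpace G] [T2Space G]
    [SecondCountableTopology G] [MeasurableSpace G] [BorelSpace G] (ν : Measure G)
    [ν.IsHaarMeasure] [IsProbabilityMeasure ν]
    (d : ℕ → ℕ) (ρ : ∀ j, G →* (EuclideanSpace ℂ (Fin (d j)) →L[ℂ] EuclideanSpace ℂ (Fin (d j))))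
    (P : ∀ j, Lp ℂ 2 ν →L[ℂ] EuclideanSpace ℂ (Fin (d j)))
    (hρ : ∀ j g v, ‖ρ j g v‖ = ‖v‖)
    (hP : ∀ j g (u : Lp ℂ 2 ν), P j (Lp.compMeasurePreserving (fun y => g⁻¹ * y)
      (measurePreserving_mul_left ν g⁻¹) u) = ρ j g (P j u))
    (hsep : ∀ u : Lp ℂ 2 ν, (∀ j, P j u = 0) → ∃ c : ℂ, ∀ᵐ y ∂ν, u y = c)
    (φ : X → G) (z : ℂ) (hz : ‖z‖ = 1) (f : X × G → ℂ)
    (hf : StronglyMeasurable f) (hfL : ∀ x, MemLp (fun y => f (x, y)) 2 ν)
    (hfS : ∀ᵐ p ∂(μ.prod ν), f (T p.1, φ p.1 * p.2) = z * f p)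
    (hnc : ¬ ∃ c : ℂ, ∀ᵐ p ∂(μ.prod ν), f p = c) :
    ∃ j, ∃ (z : ℂ) (F : X → EuclideanSpace ℂ (Fin (d j))), ‖z‖ = 1 ∧ Measurable F ∧
      (∀ᵐ x ∂μ, ‖F x‖ = 1) ∧ ∀ᵐ x ∂μ, F (T x) = z • ρ j (φ x) (F x) := by
  have hTe := glue_ergodic_of_prod μ T hT hwm
  let u : X → Lp ℂ 2 ν := fun x => (hfL x).toLp _
  have hu : ∀ x, u x =ᵐ[ν] fun y => f (x, y) := fun x => (hfL x).coeFn_toLp
  -- measurability
  have hmeas : ∀ j, Measurable fun x => P j (u x) := by
    intro j
    have hcoord : ∀ i : Fin (d j), Measurable fun x => (P j (u x)) i := by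
      intro i
      -- the coordinate functional
      let ℓ : Lp ℂ 2 ν →L[ℂ] ℂ := (EuclideanSpace.proj i : EuclideanSpace ℂ (Fin (d j)) →L[ℂ] ℂ) ∘L P j
      let w : Lp ℂ 2 ν := (InnerProductSpace.toDual ℂ (Lp ℂ 2 ν)).symm ℓ
      have hw : ∀ v, ⟪w, v⟫_ℂ = ℓ v := fun v => InnerProductSpace.toDual_symm_apply
      have h1 : (fun x => (P j (u x)) i) = fun x => ∫ y, f (x, y) * (starRingEnd ℂ) (w y) ∂ν := by
        funext x
        have : (P j (u x)) i = ℓ (u x) := rfl
        rw [this, ← hw, L2.inner_def]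
        refine integral_congr_ae ?_
        filter_upwards [hu x] with y hy
        rw [hy]
        rfl
      rw [h1]
      have h2 : StronglyMeasurable fun p : X × G => f p * (starRingEnd ℂ) (w p.2) := by
        refine hf.mul ?_
        exact Complex.continuous_conj.comp_stronglyMeasurable
          ((Lp.stronglyMeasurable w).comp_measurable measurable_snd)
      exact h2.integral_prod_right'.measurable
    have h3 : (fun x => P j (u x)) = fun x => ∑ i, (P j (u x)) i •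
        (EuclideanSpace.basisFun (Fin (d j)) ℂ) i := by
      funext x
      exact ((EuclideanSpace.basisFun (Fin (d j)) ℂ).sum_repr (P j (u x))).symm
    rw [h3]
    exact Finset.measurable_sum _ fun i _ => (hcoord i).smul_const _
  -- equivariance
  have heq : ∀ᵐ x ∂μ, u (T x) =
      z • Lp.compMeasurePreserving (fun y => (φ x)⁻¹ * y)
        (measurePreserving_mul_left ν (φ x)⁻¹) (u x) := by
    have h1 := Measure.ae_ae_of_ae_prod hfS
    filter_upwards [h1] with x hx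
    apply Lp.ext
    have h2 := (measurePreserving_mul_left ν (φ x)⁻¹).quasiMeasurePreserving.ae hx
    have h3 := (measurePreserving_mul_left ν (φ x)⁻¹).quasiMeasurePreserving.ae_eq (hu x)
    have h4 := Lp.coeFn_compMeasurePreserving (u x) (measurePreserving_mul_left ν (φ x)⁻¹)
    have h5 := Lp.coeFn_smul z (Lp.compMeasurePreserving (fun y => (φ x)⁻¹ * y)
        (measurePreserving_mul_left ν (φ x)⁻¹) (u x))
    filter_upwards [h2, h3, h4, h5, hu (T x)] with y hy2 hy3 hy4 hy5 hy6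
    rw [hy5, hy6, Pi.smul_apply, hy4, smul_eq_mul]
    simp only [Function.comp_apply, mul_inv_cancel_left] at hy2 hy3 ⊢
    rw [hy3, hy2]
  have hF : ∀ j, ∀ᵐ x ∂μ, P j (u (T x)) = z • ρ j (φ x) (P j (u x)) := by
    intro j
    filter_upwards [heq] with x hx
    rw [hx, map_smul, hP]
  have hcn : ∀ j, ∃ c : ℝ, ∀ᵐ x ∂μ, ‖P j (u x)‖ = c := by
    intro j
    have h1 : (fun x => ‖P j (u x)‖) ∘ T =ᵐ[μ] fun x => ‖P j (u x)‖ := by
      filter_upwards [hF j] with x hx
      simp only [Function.comp_apply]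
      rw [hx, norm_smul, hz, one_mul, hρ]
    exact hTe.ae_eq_const_of_ae_eq_comp_ae (hmeas j).norm.aestronglyMeasurable h1
  by_cases hall : ∀ j, ∀ᵐ x ∂μ, P j (u x) = 0
  · exfalso
    apply hnc
    have h1 : ∀ᵐ x ∂μ, ∀ j, P j (u x) = 0 := ae_all_iff.2 hall
    let a : X → ℂ := fun x => ∫ y, f (x, y) ∂ν
    have ha : Measurable a := hf.integral_prod_right'.measurable
    have h2 : ∀ᵐ x ∂μ, ∀ᵐ y ∂ν, f (x, y) = a x := by
      filter_upwards [h1] with x hx
      obtain ⟨c, hc⟩ := hsep (u x) hx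
      have h3 : ∀ᵐ y ∂ν, f (x, y) = c := by
        filter_upwards [hc, hu x] with y hy1 hy2
        rw [← hy2, hy1]
      have h4 : a x = c := by
        show ∫ y, f (x, y) ∂ν = c
        rw [integral_congr_ae h3]
        simp
      rw [h4]
      exact h3
    have h3 : ∀ᵐ x ∂μ, a (T x) = z * a x := by
      have h4 := hT.quasiMeasurePreserving.ae h2
      have h5 := Measure.ae_ae_of_ae_prod hfS
      filter_upwards [h2, h4, h5] with x hx1 hx2 hx3
      have h6 := (measurePreserving_mul_left ν (φ x)).quasiMeasurePreserving.ae hx2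
      obtain ⟨y, hy1, hy2, hy3⟩ := ((hx1.and (h6.and hx3))).exists
      rw [← hy2, ← hy1]
      exact hy3
    obtain ⟨c, hc⟩ := glue_eigen_const μ T hwm z hz a ha h3
    refine ⟨c, ?_⟩
    have hms : MeasurableSet {p : X × G | f p = c} := hf.measurable (measurableSet_singleton c)
    rw [Measure.ae_prod_iff_ae_ae hms]
    filter_upwards [h2, hc] with x hx1 hx2
    filter_upwards [hx1] with y hy
    rw [hy, hx2]
  · rw [not_forall] at hall
    obtain ⟨j, hj⟩ := hall
    obtain ⟨c, hc⟩ := hcn j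
    have hc0 : c ≠ 0 := by
      rintro rfl
      apply hj
      filter_upwards [hc] with x hx
      exact norm_eq_zero.1 hx
    have hcpos : 0 ≤ c := by
      obtain ⟨x, hx⟩ := hc.exists
      rw [← hx]; exact norm_nonneg _
    refine ⟨j, z, fun x => (c : ℂ)⁻¹ • P j (u x), hz, (hmeas j).const_smul ((c : ℂ)⁻¹), ?_, ?_⟩
    · filter_upwards [hc] with x hx
      rw [norm_smul, hx, norm_inv, Complex.norm_real, Real.norm_of_nonneg hcpos,
        inv_mul_cancel₀ hc0]
    · filter_upwards [hF j] with x hx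
      rw [hx, map_smul, smul_comm]

/-- Spectral reduction, with the existence of an eigenfunction as hypothesis. -/
theorem spectral_reduction_of_eig {X : Type*} [MeasurableSpace X] (μ : Measure X)
    [IsProbabilityMeasure μ] (T : X → X) (hT : MeasurePreserving T μ μ)
    (hwm : Ergodic (Prod.map T T) (μ.prod μ)) {G : Type*} [Group G] [TopologicalSpace G]
    [IsTopologicalGroup G] [CompactSpace G] [T2Space G] [SecondCountableTopology G]
    [MeasurableSpace G] [BorelSpace G] (ν : Measure G) [ν.IsHaarMeasure] [IsProbabilityMeasure ν]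
    (EIG : ∀ S : X × G → X × G, MeasurePreserving S (μ.prod ν) (μ.prod ν) →
      ¬ Ergodic (Prod.map S S) ((μ.prod ν).prod (μ.prod ν)) →
      ∃ (z : ℂ) (f : X × G → ℂ), ‖z‖ = 1 ∧ StronglyMeasurable f ∧ MemLp f 2 (μ.prod ν) ∧
      (∀ᵐ x ∂(μ.prod ν), f (S x) = z * f x) ∧ ¬ ∃ c : ℂ, ∀ᵐ x ∂(μ.prod ν), f x = c) :
    ∃ (d : ℕ → ℕ) (ρ : ∀ j, G →* (EuclideanSpace ℂ (Fin (d j)) →L[ℂ] EuclideanSpace ℂ (Fin (d j)))),
      (∀ j, Continuous (ρ j)) ∧ (∀ j g v, ‖ρ j g v‖ = ‖v‖) ∧
      (∀ j, (¬ ∃ v, v ≠ 0 ∧ ∀ g, ∃ α : ℂ, ρ j g v = α • v) ∨ (d j = 1 ∧ ∃ g, ρ j g ≠ 1)) ∧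
      ∀ φ : X → G, Measurable φ → ¬ Ergodic (Prod.map (fun p : X × G => (T p.1, φ p.1 * p.2))
        (fun p : X × G => (T p.1, φ p.1 * p.2))) ((μ.prod ν).prod (μ.prod ν)) →
        ∃ j, ∃ (z : ℂ) (F : X → EuclideanSpace ℂ (Fin (d j))), ‖z‖ = 1 ∧ Measurable F ∧
          (∀ᵐ x ∂μ, ‖F x‖ = 1) ∧ ∀ᵐ x ∂μ, F (T x) = z • ρ j (φ x) (F x) := by
  obtain ⟨d, ρ, P, h1, h2, h3, h4, h5⟩ := peter_weyl_separation ν
  refine ⟨d, ρ, h1, h2, h3, ?_⟩
  intro φ hφ hne
  have hS : MeasurePreserving (fun p : X × G => (T p.1, φ p.1 * p.2)) (μ.prod ν) (μ.prod ν) := by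
    refine hT.skew_product (g := fun x y => φ x * y) ?_ (Eventually.of_forall fun x =>
      (measurePreserving_mul_left ν (φ x)).map_eq)
    exact (hφ.comp measurable_fst).mul measurable_snd
  obtain ⟨z, f, hz, hf, hf2, hfS, hnc⟩ := EIG _ hS hne
  -- make all sections square integrable
  have hint : Integrable (fun p => ‖f p‖ ^ 2) (μ.prod ν) := (memLp_two_iff_integrable_sq_norm hf.aestronglyMeasurable).1 hf2
  have hfin : ∀ᵐ x ∂μ, MemLp (fun y => f (x, y)) 2 ν := by
    filter_upwards [hint.prod_right_ae] with x hx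
    exact (memLp_two_iff_integrable_sq_norm
      (hf.comp_measurable measurable_prodMk_left).aestronglyMeasurable).2 hx
  let A : Set X := {x | Integrable (fun y => ‖f (x, y)‖ ^ 2) ν}
  have hA : MeasurableSet A := measurableSet_integrable (f := fun x y => ‖f (x, y)‖ ^ 2) (hf.norm.pow 2)
  have hAm : MeasurableSet ((Prod.fst : X × G → X) ⁻¹' A) := measurable_fst hA
  let f' : X × G → ℂ := ((Prod.fst : X × G → X) ⁻¹' A).indicator f
  have hf' : StronglyMeasurable f' := hf.indicator hAm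
  have heq : ∀ᵐ p ∂(μ.prod ν), f' p = f p := by
    have h6 : ∀ᵐ p ∂(μ.prod ν), MemLp (fun y => f (p.1, y)) 2 ν :=
      (measurePreserving_fst (μ := μ) (ν := ν)).quasiMeasurePreserving.ae hfin
    filter_upwards [h6] with p hp
    have hpA : p ∈ (Prod.fst : X × G → X) ⁻¹' A := by
      exact (memLp_two_iff_integrable_sq_norm
        (hf.comp_measurable measurable_prodMk_left).aestronglyMeasurable).1 hp
    exact Set.indicator_of_mem hpA f
  have hfL : ∀ x, MemLp (fun y => f' (x, y)) 2 ν := by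
    intro x
    by_cases hx : x ∈ A
    · have h6 : (fun y => f' (x, y)) = fun y => f (x, y) := by
        funext y
        exact Set.indicator_of_mem (s := (Prod.fst : X × G → X) ⁻¹' A) (a := (x, y)) hx f
      rw [h6]
      exact (memLp_two_iff_integrable_sq_norm
        (hf.comp_measurable measurable_prodMk_left).aestronglyMeasurable).2 hx
    · have h6 : (fun y => f' (x, y)) = fun _ => 0 := by
        funext y
        exact Set.indicator_of_notMem (s := (Prod.fst : X × G → X) ⁻¹' A) (a := (x, y)) hx f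
      rw [h6]
      exact MemLp.zero'
  have hfS' : ∀ᵐ p ∂(μ.prod ν), f' (T p.1, φ p.1 * p.2) = z * f' p := by
    filter_upwards [hS.quasiMeasurePreserving.ae heq, heq, hfS] with p hp1 hp2 hp3
    rw [hp1, hp2, hp3]
  have hnc' : ¬ ∃ c : ℂ, ∀ᵐ p ∂(μ.prod ν), f' p = c := by
    rintro ⟨c, hc⟩
    apply hnc
    refine ⟨c, ?_⟩
    filter_upwards [heq, hc] with p hp1 hp2
    rw [← hp1, hp2]
  exact glue_main μ T hT hwm ν d ρ P h2 h4 h5 φ z hz f' hf' hfL hfS' hnc'

end Pool.Agent.Skew
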