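import Mathlib
import Pool.Agent.Helper40.SkewLie2

open Filter Topology
open scoped InnerProductSpace

namespace Pool.Agent.Skew

section LieGen

variable {A : Type*} [NormedRing A] [NormedAlgebra ℝ A] [CompleteSpace A]

theorem lie1_exp_slope (X : A) (r : ℕ → ℝ) (hr0 : ∀ n, 0 < r n) (hr : Tendsto r atTop (𝓝 0)) :
    Tendsto (fun n => (r n)⁻¹ • (NormedSpace.exp (r n • X) - 1)) atTop (𝓝 X) := by
  have h := hasDerivAt_exp_smul_const (𝕂 := ℝ) X (0 : ℝ)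
  rw [hasDerivAt_iff_tendsto_slope_zero] at h
  simp only [zero_add, zero_smul, NormedSpace.exp_zero, one_mul] at h
  exact h.comp (tendsto_nhdsWithin_iff.2 ⟨hr, Eventually.of_forall fun n => (hr0 n).ne'⟩)

theorem lie1_pow_sub (B D : A) (hB : ‖B‖ ≤ 1) (C : ℝ) (_ : 0 ≤ C) (k : ℕ)
    (hD : ∀ j < k, ‖D ^ j‖ ≤ C) : ‖B ^ k - D ^ k‖ ≤ k * C * ‖B - D‖ := by
  induction k with
  | zero => simp
  | succ k ih =>
    have h1 := ih fun j hj => hD j (Nat.lt_succ_of_lt hj)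
    have h2 : B ^ (k + 1) - D ^ (k + 1) = B * (B ^ k - D ^ k) + (B - D) * D ^ k := by
      rw [pow_succ', pow_succ', mul_sub, sub_mul]; abel
    rw [h2]
    have h3 := hD k (Nat.lt_succ_self k)
    calc ‖B * (B ^ k - D ^ k) + (B - D) * D ^ k‖
        ≤ ‖B‖ * ‖B ^ k - D ^ k‖ + ‖B - D‖ * ‖D ^ k‖ :=
          (norm_add_le _ _).trans (add_le_add (norm_mul_le _ _) (norm_mul_le _ _))
      _ ≤ 1 * (k * C * ‖B - D‖) + ‖B - D‖ * C := by gcongr
      _ = _ := by push_cast; ring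

/-- limits of difference quotients of elements of a closed semigroup of contractions generate
one-parameter semigroups inside it. -/
theorem lie1_P (Γ : Set A) (hcl : IsClosed Γ) (hm : ∀ a ∈ Γ, ∀ b ∈ Γ, a * b ∈ Γ) (h1 : (1 : A) ∈ Γ)
    (hn : ∀ a ∈ Γ, ‖a‖ ≤ 1) (h : ℕ → A) (hh : ∀ n, h n ∈ Γ) (r : ℕ → ℝ) (hr0 : ∀ n, 0 < r n)
    (hr : Tendsto r atTop (𝓝 0)) (X : A)
    (hX : Tendsto (fun n => (r n)⁻¹ • (h n - 1)) atTop (𝓝 X)) (t : ℝ) (ht : 0 ≤ t) :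
    NormedSpace.exp (t • X) ∈ Γ := by
  let _ : NormedAlgebra ℚ A := NormedAlgebra.restrictScalars ℚ ℝ A
  have hpow : ∀ a ∈ Γ, ∀ k : ℕ, a ^ k ∈ Γ := by
    intro a ha k
    induction k with
    | zero => rw [pow_zero]; exact h1
    | succ k ih => rw [pow_succ]; exact hm _ ih _ ha
  have hcont : Continuous fun s : ℝ => NormedSpace.exp (s • X) :=
    NormedSpace.exp_continuous.comp (continuous_id.smul continuous_const)
  obtain ⟨C, hC⟩ := (isCompact_Icc (a := (0 : ℝ)) (b := t)).exists_bound_of_continuousOn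
    hcont.continuousOn
  have hC0 : 0 ≤ C := (norm_nonneg _).trans (hC 0 ⟨le_rfl, ht⟩)
  let k : ℕ → ℕ := fun n => ⌊t / r n⌋₊
  have hk1 : ∀ n, (k n : ℝ) * r n ≤ t := by
    intro n
    have := Nat.floor_le (div_nonneg ht (hr0 n).le)
    rwa [le_div_iff₀ (hr0 n)] at this
  have hk2 : ∀ n, t - r n ≤ (k n : ℝ) * r n := by
    intro n
    have := Nat.lt_floor_add_one (t / r n)
    rw [div_lt_iff₀ (hr0 n)] at this
    have h' : (k n : ℝ) = (⌊t / r n⌋₊ : ℝ) := rfl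
    rw [h']
    linarith [this, add_mul (⌊t / r n⌋₊ : ℝ) 1 (r n), one_mul (r n)]
  have hkt : Tendsto (fun n => (k n : ℝ) * r n) atTop (𝓝 t) := by
    refine tendsto_of_tendsto_of_tendsto_of_le_of_le (g := fun n => t - r n) (h := fun _ => t)
      ?_ tendsto_const_nhds hk2 hk1
    simpa using tendsto_const_nhds.sub hr
  have hexp : ∀ (s : ℝ) (j : ℕ), NormedSpace.exp (s • X) ^ j = NormedSpace.exp (((j : ℝ) * s) • X) := by
    intro s j
    rw [← NormedSpace.exp_nsmul, ← Nat.cast_smul_eq_nsmul ℝ, smul_smul]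
  have hlim1 : Tendsto (fun n => NormedSpace.exp (r n • X) ^ (k n)) atTop
      (𝓝 (NormedSpace.exp (t • X))) := by
    simp_rw [hexp]
    exact (hcont.tendsto t).comp hkt
  have hlim2 : Tendsto (fun n => h n ^ k n - NormedSpace.exp (r n • X) ^ (k n)) atTop (𝓝 0) := by
    have h3 : Tendsto (fun n => t * C * ‖(r n)⁻¹ • (h n - 1) -
        (r n)⁻¹ • (NormedSpace.exp (r n • X) - 1)‖) atTop (𝓝 0) := by
      have h4 := (hX.sub (lie1_exp_slope X r hr0 hr)).norm.const_mul (t * C)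
      simpa using h4
    refine squeeze_zero_norm (fun n => ?_) h3
    have h4 := lie1_pow_sub (h n) (NormedSpace.exp (r n • X)) (hn _ (hh n)) C hC0 (k n) (by
      intro j hj
      rw [hexp]
      apply hC
      refine ⟨mul_nonneg (Nat.cast_nonneg _) (hr0 n).le, le_trans ?_ (hk1 n)⟩
      exact mul_le_mul_of_nonneg_right (by exact_mod_cast hj.le) (hr0 n).le)
    refine h4.trans ?_
    rw [← smul_sub, sub_sub_sub_cancel_right, norm_smul, norm_inv, Real.norm_of_nonneg (hr0 n).le]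
    have h5 : (k n : ℝ) * C * ‖h n - NormedSpace.exp (r n • X)‖ =
        ((k n : ℝ) * r n) * C * ((r n)⁻¹ * ‖h n - NormedSpace.exp (r n • X)‖) := by
      have := (hr0 n).ne'
      field_simp
    rw [h5]
    have h6 : 0 ≤ (r n)⁻¹ * ‖h n - NormedSpace.exp (r n • X)‖ :=
      mul_nonneg (inv_nonneg.2 (hr0 n).le) (norm_nonneg _)
    exact mul_le_mul_of_nonneg_right (mul_le_mul_of_nonneg_right (hk1 n) hC0) h6
  have hlim : Tendsto (fun n => h n ^ k n) atTop (𝓝 (NormedSpace.exp (t • X))) := by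
    have := hlim2.add hlim1
    simpa using this
  exact hcl.mem_of_tendsto hlim (Eventually.of_forall fun n => hpow _ (hh n) _)

/-- a closed group of contractions -/
structure Lie1Grp (Γ : Set A) : Prop where
  cl : IsClosed Γ
  mul : ∀ a ∈ Γ, ∀ b ∈ Γ, a * b ∈ Γ
  one : (1 : A) ∈ Γ
  norm_le : ∀ a ∈ Γ, ‖a‖ ≤ 1
  inv : ∀ a ∈ Γ, ∃ b ∈ Γ, a * b = 1 ∧ b * a = 1

theorem lie1_exp_neg (X : A) : NormedSpace.exp X * NormedSpace.exp (-X) = 1 := by
  let _ : NormedAlgebra ℚ A := NormedAlgebra.restrictScalars ℚ ℝ A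
  rw [← NormedSpace.exp_add_of_commute (Commute.neg_right (Commute.refl X)), add_neg_cancel,
    NormedSpace.exp_zero]

theorem lie1_exp_neg' (X : A) : NormedSpace.exp (-X) * NormedSpace.exp X = 1 := by
  have := lie1_exp_neg (-X)
  rwa [neg_neg] at this

theorem lie1_exp_neg_mem (Γ : Set A) (hΓ : Lie1Grp Γ) (X : A) (h : NormedSpace.exp X ∈ Γ) :
    NormedSpace.exp (-X) ∈ Γ := by
  obtain ⟨b, hb, h1, h2⟩ := hΓ.inv _ h
  have : NormedSpace.exp (-X) = b := by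
    calc NormedSpace.exp (-X) = NormedSpace.exp (-X) * (NormedSpace.exp X * b) := by
          rw [h1, mul_one]
      _ = b := by rw [← mul_assoc, lie1_exp_neg', one_mul]
  rw [this]; exact hb

theorem lie1_P' (Γ : Set A) (hΓ : Lie1Grp Γ) (h : ℕ → A) (hh : ∀ n, h n ∈ Γ) (r : ℕ → ℝ)
    (hr0 : ∀ n, 0 < r n) (hr : Tendsto r atTop (𝓝 0)) (X : A)
    (hX : Tendsto (fun n => (r n)⁻¹ • (h n - 1)) atTop (𝓝 X)) (t : ℝ) :
    NormedSpace.exp (t • X) ∈ Γ := by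
  rcases le_total 0 t with ht | ht
  · exact lie1_P Γ hΓ.cl hΓ.mul hΓ.one hΓ.norm_le h hh r hr0 hr X hX t ht
  · have h1 := lie1_P Γ hΓ.cl hΓ.mul hΓ.one hΓ.norm_le h hh r hr0 hr X hX (-t) (by linarith)
    have h2 := lie1_exp_neg_mem Γ hΓ _ h1
    rwa [neg_smul, neg_neg] at h2

theorem lie1_seq_pos : ∀ n : ℕ, 0 < (1 : ℝ) / ((n : ℝ) + 1) := fun n => by positivity

theorem lie1_exp_tendsto (X : A) (r : ℕ → ℝ) (hr : Tendsto r atTop (𝓝 0)) :
    Tendsto (fun n => NormedSpace.exp (r n • X)) atTop (𝓝 1) := by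
  let _ : NormedAlgebra ℚ A := NormedAlgebra.restrictScalars ℚ ℝ A
  have hcont : Continuous fun s : ℝ => NormedSpace.exp (s • X) :=
    NormedSpace.exp_continuous.comp (continuous_id.smul continuous_const)
  have := (hcont.tendsto 0).comp hr
  rw [zero_smul, NormedSpace.exp_zero] at this
  exact this

/-- The Lie algebra of a closed group of contractions. -/
def lie1Alg (Γ : Set A) (hΓ : Lie1Grp Γ) : Submodule ℝ A where
  carrier := {X | ∀ t : ℝ, NormedSpace.exp (t • X) ∈ Γ}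
  zero_mem' := by
    intro t
    rw [smul_zero, NormedSpace.exp_zero]
    exact hΓ.one
  smul_mem' := by
    intro c X hX t
    rw [smul_smul]
    exact hX _
  add_mem' := by
    intro X Y hX hY t
    let r : ℕ → ℝ := fun n => 1 / ((n : ℝ) + 1)
    have hr : Tendsto r atTop (𝓝 0) := tendsto_one_div_add_atTop_nhds_zero_nat
    refine lie1_P' Γ hΓ (fun n => NormedSpace.exp (r n • X) * NormedSpace.exp (r n • Y))
      (fun n => hΓ.mul _ (hX _) _ (hY _)) r lie1_seq_pos hr (X + Y) ?_ t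
    have h1 := (lie1_exp_slope X r lie1_seq_pos hr).mul (lie1_exp_tendsto Y r hr)
    have h2 := h1.add (lie1_exp_slope Y r lie1_seq_pos hr)
    rw [mul_one] at h2
    refine h2.congr fun n => ?_
    rw [smul_mul_assoc, ← smul_add]
    congr 1
    noncomm_ring

theorem mem_lie1Alg (Γ : Set A) (hΓ : Lie1Grp Γ) (X : A) :
    X ∈ lie1Alg Γ hΓ ↔ ∀ t : ℝ, NormedSpace.exp (t • X) ∈ Γ := Iff.rfl

theorem lie1Alg_closed (Γ : Set A) (hΓ : Lie1Grp Γ) : IsClosed (lie1Alg Γ hΓ : Set A) := by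
  let _ : NormedAlgebra ℚ A := NormedAlgebra.restrictScalars ℚ ℝ A
  have : (lie1Alg Γ hΓ : Set A) = ⋂ t : ℝ, (fun X : A => NormedSpace.exp (t • X)) ⁻¹' Γ := by
    ext X
    simp only [SetLike.mem_coe, mem_lie1Alg, Set.mem_iInter, Set.mem_preimage]
  rw [this]
  exact isClosed_iInter fun t => hΓ.cl.preimage
    (NormedSpace.exp_continuous.comp (continuous_const.smul continuous_id))

theorem lie1Alg_conj (Γ : Set A) (hΓ : Lie1Grp Γ) (a b : A) (ha : a ∈ Γ) (hb : b ∈ Γ)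
    (hab : a * b = 1) (hba : b * a = 1) (X : A) (hX : X ∈ lie1Alg Γ hΓ) :
    a * X * b ∈ lie1Alg Γ hΓ := by
  let _ : NormedAlgebra ℚ A := NormedAlgebra.restrictScalars ℚ ℝ A
  intro t
  have h1 := NormedSpace.exp_units_conj (⟨a, b, hab, hba⟩ : Aˣ) (t • X)
  have h2 : t • (a * X * b) = a * (t • X) * b := by
    rw [mul_smul_comm, smul_mul_assoc]
  rw [h2]
  have h3 : NormedSpace.exp (a * (t • X) * b) = a * NormedSpace.exp (t • X) * b := h1
  rw [h3]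
  exact hΓ.mul _ (hΓ.mul _ ha _ (hX t)) _ hb

theorem lie1Alg_bracket (Γ : Set A) (hΓ : Lie1Grp Γ) (X Y : A) (hX : X ∈ lie1Alg Γ hΓ)
    (hY : Y ∈ lie1Alg Γ hΓ) : X * Y - Y * X ∈ lie1Alg Γ hΓ := by
  let r : ℕ → ℝ := fun n => 1 / ((n : ℝ) + 1)
  have hr : Tendsto r atTop (𝓝 0) := tendsto_one_div_add_atTop_nhds_zero_nat
  have hlim : Tendsto (fun n => (r n)⁻¹ • (NormedSpace.exp (r n • X) * Y *
      NormedSpace.exp (-(r n • X)) - Y)) atTop (𝓝 (X * Y - Y * X)) := by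
    have h1 := (((lie1_exp_slope X r lie1_seq_pos hr).mul_const Y).mul
      (lie1_exp_tendsto (-X) r hr)).add
      ((lie1_exp_slope (-X) r lie1_seq_pos hr).const_mul Y)
    have h2 : X * Y * 1 + Y * -X = X * Y - Y * X := by noncomm_ring
    rw [h2] at h1
    refine h1.congr fun n => ?_
    rw [smul_mul_assoc, smul_mul_assoc, mul_smul_comm, ← smul_add]
    congr 1
    rw [smul_neg]
    noncomm_ring
  refine (lie1Alg_closed Γ hΓ).mem_of_tendsto hlim (Eventually.of_forall fun n => ?_)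
  refine Submodule.smul_mem _ _ (Submodule.sub_mem _ ?_ hY)
  refine lie1Alg_conj Γ hΓ _ _ (hX _) (lie1_exp_neg_mem Γ hΓ _ (hX _)) (lie1_exp_neg _)
    (lie1_exp_neg' _) _ hY

end LieGen


section LieRep

variable {G : Type*} [Group G] [TopologicalSpace G] [IsTopologicalGroup G] [CompactSpace G]
  {V : Type*} [NormedAddCommGroup V] [InnerProductSpace ℂ V] [FiniteDimensional ℂ V]
  (ρ : G →* (V →L[ℂ] V)) (hρ : Continuous ρ) (hu : ∀ g v, ‖ρ g v‖ = ‖v‖)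

include hu in
theorem lie1_norm_le (g : G) : ‖ρ g‖ ≤ 1 :=
  ContinuousLinearMap.opNorm_le_bound _ zero_le_one (fun v => by rw [hu, one_mul])

include hρ hu in
theorem lie1_grp : Lie1Grp (Set.range ρ) where
  cl := (isCompact_range hρ).isClosed
  mul := by
    rintro _ ⟨g, rfl⟩ _ ⟨h, rfl⟩
    exact ⟨g * h, map_mul ρ g h⟩
  one := ⟨1, map_one ρ⟩
  norm_le := by
    rintro _ ⟨g, rfl⟩
    exact lie1_norm_le ρ hu g
  inv := by
    rintro _ ⟨g, rfl⟩
    refine ⟨ρ g⁻¹, ⟨g⁻¹, rfl⟩, ?_, ?_⟩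
    · rw [← map_mul, mul_inv_cancel, map_one]
    · rw [← map_mul, inv_mul_cancel, map_one]

include hu in
theorem lie1_inner (g : G) (x y : V) : ⟪ρ g x, ρ g y⟫_ℂ = ⟪x, y⟫_ℂ := by
  let e : V →ₗᵢ[ℂ] V := ⟨(ρ g).toLinearMap, hu g⟩
  exact e.inner_map_map x y

theorem lie1_slope_apply (X : V →L[ℂ] V) (r : ℕ → ℝ) (hr0 : ∀ n, 0 < r n)
    (hr : Tendsto r atTop (𝓝 0)) (w : V) :
    Tendsto (fun n => ((r n)⁻¹ : ℂ) • (NormedSpace.exp (r n • X) w - w)) atTop (𝓝 (X w)) := by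
  have h := ((ContinuousLinearMap.apply ℂ V w).continuous.tendsto X).comp
    (lie1_exp_slope X r hr0 hr)
  refine h.congr fun n => ?_
  simp only [Function.comp_apply]
  rw [← Complex.ofReal_inv]
  rfl

include hu in
theorem lie1_skew (X : V →L[ℂ] V) (hX : ∀ t : ℝ, NormedSpace.exp (t • X) ∈ Set.range ρ)
    (u v : V) : ⟪X u, v⟫_ℂ = - ⟪u, X v⟫_ℂ := by
  let r : ℕ → ℝ := fun n => 1 / ((n : ℝ) + 1)
  have hr : Tendsto r atTop (𝓝 0) := tendsto_one_div_add_atTop_nhds_zero_nat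
  have h1 := lie1_slope_apply X r lie1_seq_pos hr u
  have h2 := lie1_slope_apply X r lie1_seq_pos hr v
  have h3 : Tendsto (fun n => NormedSpace.exp (r n • X) v) atTop (𝓝 v) :=
    ((ContinuousLinearMap.apply ℂ V v).continuous.tendsto 1).comp (lie1_exp_tendsto X r hr)
  have h4 := (h1.inner (𝕜 := ℂ) h3).add ((tendsto_const_nhds (x := u)).inner (𝕜 := ℂ) h2)
  have h5 : ∀ n, ⟪((r n)⁻¹ : ℂ) • (NormedSpace.exp (r n • X) u - u), NormedSpace.exp (r n • X) v⟫_ℂ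
      + ⟪u, ((r n)⁻¹ : ℂ) • (NormedSpace.exp (r n • X) v - v)⟫_ℂ = 0 := by
    intro n
    obtain ⟨g, hg⟩ := hX (r n)
    rw [← hg, inner_smul_left, inner_smul_right, inner_sub_left, inner_sub_right,
      lie1_inner ρ hu, ← Complex.ofReal_inv, Complex.conj_ofReal]
    ring
  simp_rw [h5] at h4
  have h6 := tendsto_nhds_unique h4 tendsto_const_nhds
  exact eq_neg_of_add_eq_zero_left h6

include hu in
theorem lie1_norm_mul (g : G) (B : V →L[ℂ] V) : ‖ρ g * B‖ = ‖B‖ := by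
  apply le_antisymm
  · calc ‖ρ g * B‖ ≤ ‖ρ g‖ * ‖B‖ := norm_mul_le _ _
      _ ≤ 1 * ‖B‖ := by gcongr; exact lie1_norm_le ρ hu g
      _ = ‖B‖ := one_mul _
  · have h1 : B = ρ g⁻¹ * (ρ g * B) := by
      rw [← mul_assoc, ← map_mul, inv_mul_cancel, map_one, one_mul]
    calc ‖B‖ = ‖ρ g⁻¹ * (ρ g * B)‖ := by rw [← h1]
      _ ≤ ‖ρ g⁻¹‖ * ‖ρ g * B‖ := norm_mul_le _ _
      _ ≤ 1 * ‖ρ g * B‖ := by gcongr; exact lie1_norm_le ρ hu g⁻¹
      _ = _ := one_mul _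

/-- the stabiliser of a line -/
def lie1Stab (v : V) (hv : v ≠ 0) : Subgroup G where
  carrier := {g | ∃ α : ℂ, ρ g v = α • v}
  one_mem' := ⟨1, by rw [map_one, one_smul]; rfl⟩
  mul_mem' := by
    rintro g h ⟨α, hα⟩ ⟨β, hβ⟩
    refine ⟨β * α, ?_⟩
    rw [map_mul, mul_apply_eq_comp, hβ, map_smul, hα, smul_smul]
  inv_mem' := by
    rintro g ⟨α, hα⟩
    have h1 : ρ g⁻¹ (ρ g v) = v := by
      rw [← mul_apply_eq_comp, ← map_mul, inv_mul_cancel, map_one]; rfl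
    have hα0 : α ≠ 0 := by
      rintro rfl
      rw [hα, zero_smul, map_zero] at h1
      exact hv h1.symm
    refine ⟨α⁻¹, ?_⟩
    rw [hα, map_smul] at h1
    rw [eq_inv_smul_iff₀ hα0]
    exact h1

theorem lie1_exp_line (X : V →L[ℂ] V) (v : V) (α : ℂ) (h : X v = α • v) (t : ℝ) :
    ∃ β : ℂ, NormedSpace.exp (t • X) v = β • v := by
  have h1 : HasSum (fun n : ℕ => ((n.factorial : ℂ)⁻¹ • (t • X) ^ n) v)
      (NormedSpace.exp (t • X) v) :=
    (NormedSpace.exp_series_hasSum_exp' (𝕂 := ℂ) (t • X)).mapL (ContinuousLinearMap.apply ℂ V v)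
  have hX : ∀ n : ℕ, ((t • X) ^ n) v ∈ (ℂ ∙ v : Submodule ℂ V) := by
    intro n
    induction n with
    | zero => rw [pow_zero]; exact Submodule.mem_span_singleton_self v
    | succ n ih =>
      obtain ⟨a, ha⟩ := Submodule.mem_span_singleton.1 ih
      rw [pow_succ', mul_apply_eq_comp, ← ha, map_smul]
      have h2 : (t • X) v = (t : ℂ) • (α • v) := by rw [← h]; rfl
      rw [h2]
      exact Submodule.smul_mem _ _ (Submodule.smul_mem _ _ (Submodule.smul_mem _ _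
        (Submodule.mem_span_singleton_self v)))
  have h2 : NormedSpace.exp (t • X) v ∈ (ℂ ∙ v : Submodule ℂ V) := by
    refine (Submodule.closed_of_finiteDimensional (ℂ ∙ v : Submodule ℂ V)).mem_of_tendsto h1
      (Eventually.of_forall fun s => ?_)
    exact Submodule.sum_mem _ fun n _ => Submodule.smul_mem _ _ (hX n)
  obtain ⟨a, ha⟩ := Submodule.mem_span_singleton.1 h2
  exact ⟨a, ha.symm⟩

include hρ in
theorem lie1_closed_line (v : V) :
    IsClosed {g | ∃ α : ℂ, ρ g v = α • v} := by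
  have h1 : {g | ∃ α : ℂ, ρ g v = α • v} = (fun g => ρ g v) ⁻¹' (ℂ ∙ v : Submodule ℂ V) := by
    ext g
    simp only [Set.mem_preimage, SetLike.mem_coe, Submodule.mem_span_singleton]
    exact ⟨fun ⟨a, ha⟩ => ⟨a, ha.symm⟩, fun ⟨a, ha⟩ => ⟨a, ha.symm⟩⟩
  rw [h1]
  exact (Submodule.closed_of_finiteDimensional _).preimage (hρ.clm_apply continuous_const)

include hρ hu in
theorem lie1_N [ConnectedSpace G] (v : V) (hv : v ≠ 0)
    (h : ∀ X : V →L[ℂ] V, (∀ t : ℝ, NormedSpace.exp (t • X) ∈ Set.range ρ) →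
      ∃ α : ℂ, X v = α • v) : ∀ g, ∃ α : ℂ, ρ g v = α • v := by
  by_contra hcon
  let S : Subgroup G := lie1Stab ρ v hv
  have hSmem : ∀ g, g ∈ S ↔ ∃ α : ℂ, ρ g v = α • v := fun g => Iff.rfl
  have hScl : IsClosed (S : Set G) := lie1_closed_line ρ hρ v
  have hSne : (S : Set G) ∉ 𝓝 (1 : G) := by
    intro hS
    have hop : IsOpen (S : Set G) := Subgroup.isOpen_of_mem_nhds S hS
    have huniv : (S : Set G) = Set.univ := IsClopen.eq_univ ⟨hScl, hop⟩ ⟨1, S.one_mem⟩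
    apply hcon
    intro g
    have : g ∈ (S : Set G) := by rw [huniv]; trivial
    exact this
  have hch : ∀ n : ℕ, ∃ g : G, ‖ρ g - 1‖ < 1 / ((n : ℝ) + 1) ∧ g ∉ S := by
    intro n
    have hU : {g : G | ‖ρ g - 1‖ < 1 / ((n : ℝ) + 1)} ∈ 𝓝 (1 : G) := by
      have hc : Continuous fun g => ‖ρ g - 1‖ := (hρ.sub continuous_const).norm
      refine (isOpen_lt hc continuous_const).mem_nhds ?_
      show ‖ρ 1 - 1‖ < 1 / ((n : ℝ) + 1)
      rw [map_one, sub_self, norm_zero]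
      positivity
    by_contra hno
    push Not at hno
    exact hSne (Filter.mem_of_superset hU fun g hg => hno g hg)
  choose γ hγ1 hγS using hch
  have hmin : ∀ n : ℕ, ∃ s ∈ S, ∀ s' ∈ S, ‖ρ (γ n) - ρ s‖ ≤ ‖ρ (γ n) - ρ s'‖ := by
    intro n
    obtain ⟨s, hs, hs'⟩ := hScl.isCompact.exists_isMinOn (f := fun s => ‖ρ (γ n) - ρ s‖)
      ⟨1, S.one_mem⟩ ((continuous_const.sub hρ).norm.continuousOn)
    exact ⟨s, hs, fun s' hs'' => hs' hs''⟩
  choose s hsS hsmin using hmin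
  let r : ℕ → ℝ := fun n => ‖ρ (γ n) - ρ (s n)‖
  have hr0 : ∀ n, 0 < r n := by
    intro n
    refine norm_pos_iff.2 fun h0 => hγS n ?_
    rw [sub_eq_zero] at h0
    rw [hSmem, h0]
    exact hsS n
  have hrlt : ∀ n, r n ≤ 1 / ((n : ℝ) + 1) := by
    intro n
    have h1 := hsmin n 1 S.one_mem
    rw [map_one] at h1
    exact h1.trans (hγ1 n).le
  have hr : Tendsto r atTop (𝓝 0) :=
    squeeze_zero (fun n => (hr0 n).le) hrlt tendsto_one_div_add_atTop_nhds_zero_nat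
  let η : ℕ → G := fun n => (s n)⁻¹ * γ n
  have hη : ∀ n (σ : G), ‖ρ (η n) - ρ σ‖ = ‖ρ (γ n) - ρ (s n * σ)‖ := by
    intro n σ
    rw [← lie1_norm_mul ρ hu (s n) (ρ (η n) - ρ σ), mul_sub, ← map_mul, ← map_mul]
    congr 3
    simp [η]
  have hη1 : ∀ n, ‖ρ (η n) - 1‖ = r n := by
    intro n
    have := hη n 1
    rw [map_one, mul_one] at this
    exact this
  have hη2 : ∀ n, ∀ σ ∈ S, r n ≤ ‖ρ (η n) - ρ σ‖ := by
    intro n σ hσ
    rw [hη]
    exact hsmin n _ (S.mul_mem (hsS n) hσ)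
  let x : ℕ → (V →L[ℂ] V) := fun n => (r n)⁻¹ • (ρ (η n) - 1)
  have hx : ∀ n, x n ∈ Metric.sphere (0 : V →L[ℂ] V) 1 := by
    intro n
    rw [mem_sphere_zero_iff_norm]
    show ‖(r n)⁻¹ • (ρ (η n) - 1)‖ = 1
    rw [norm_smul, hη1, norm_inv, Real.norm_of_nonneg (hr0 n).le, inv_mul_cancel₀ (hr0 n).ne']
  have : ProperSpace (V →L[ℂ] V) := FiniteDimensional.proper ℂ _
  obtain ⟨X, hXs, φ, hφ, hX⟩ := (isCompact_sphere (0 : V →L[ℂ] V) 1).tendsto_subseq hx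
  have hrφ : Tendsto (r ∘ φ) atTop (𝓝 0) := hr.comp hφ.tendsto_atTop
  have hXmem : ∀ t : ℝ, NormedSpace.exp (t • X) ∈ Set.range ρ :=
    lie1_P' (Set.range ρ) (lie1_grp ρ hρ hu) (fun n => ρ (η (φ n))) (fun n => ⟨_, rfl⟩)
      (r ∘ φ) (fun n => hr0 _) hrφ X hX
  obtain ⟨α, hα⟩ := h X hXmem
  have hlow : ∀ n, 1 ≤ ‖x (φ n) - (r (φ n))⁻¹ • (NormedSpace.exp (r (φ n) • X) - 1)‖ := by
    intro n
    obtain ⟨σ, hσ⟩ := hXmem (r (φ n))
    have hσS : σ ∈ S := by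
      rw [hSmem, hσ]
      exact lie1_exp_line X v α hα _
    have h1 := hη2 (φ n) σ hσS
    show 1 ≤ ‖(r (φ n))⁻¹ • (ρ (η (φ n)) - 1) - (r (φ n))⁻¹ • (NormedSpace.exp (r (φ n) • X) - 1)‖
    rw [← smul_sub, sub_sub_sub_cancel_right, norm_smul, ← hσ, norm_inv,
      Real.norm_of_nonneg (hr0 _).le, ← div_eq_inv_mul, one_le_div (hr0 _)]
    exact h1
  have hlim := (hX.sub (lie1_exp_slope X (r ∘ φ) (fun n => hr0 _) hrφ)).norm
  rw [sub_self, norm_zero] at hlim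
  have := ge_of_tendsto hlim (Eventually.of_forall hlow)
  linarith

end LieRep

theorem lie1_limit_eig {V : Type*} [NormedAddCommGroup V] [InnerProductSpace ℂ V]
    [FiniteDimensional ℂ V] (X : V →L[ℂ] V) (r : ℕ → ℝ) (hr0 : ∀ n, 0 < r n)
    (hr : Tendsto r atTop (𝓝 0)) (w : ℕ → V) (w0 : V) (hw : Tendsto w atTop (𝓝 w0))
    (hn : ∀ n, ‖w n‖ = 1) (α : ℕ → ℂ) (h : ∀ n, NormedSpace.exp (r n • X) (w n) = α n • w n) :
    ∃ β : ℂ, X w0 = β • w0 := by
  have h1 : Tendsto (fun n => ((r n)⁻¹ • (NormedSpace.exp (r n • X) - 1)) (w n)) atTop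
      (𝓝 (X w0)) :=
    ((isBoundedBilinearMap_apply (𝕜 := ℂ) (E := V) (F := V)).continuous.tendsto (X, w0)).comp
      ((lie1_exp_slope X r hr0 hr).prodMk_nhds hw)
  have h2 := hw.inner (𝕜 := ℂ) h1
  have h3 := h2.smul hw
  have h4 : ∀ n, ⟪w n, ((r n)⁻¹ • (NormedSpace.exp (r n • X) - 1)) (w n)⟫_ℂ • w n =
      ((r n)⁻¹ • (NormedSpace.exp (r n • X) - 1)) (w n) := by
    intro n
    have h5 : ((r n)⁻¹ • (NormedSpace.exp (r n • X) - 1)) (w n) =
        (((r n)⁻¹ : ℝ) : ℂ) • (α n • w n - w n) := by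
      rw [← h]; rfl
    rw [h5, inner_smul_right, inner_sub_right, inner_smul_right, inner_self_eq_norm_sq_to_K, hn]
    simp only [RCLike.ofReal_one, one_pow, mul_one]
    rw [mul_smul, sub_smul, one_smul]
  simp_rw [h4] at h3
  exact ⟨_, tendsto_nhds_unique h1 h3⟩

/-- compact connected group without invariant line has a pair without common eigenvector -/
theorem exists_pair {G : Type*} [Group G] [TopologicalSpace G] [IsTopologicalGroup G]
    [CompactSpace G] [ConnectedSpace G] {V : Type*} [NormedAddCommGroup V] [InnerProductSpace ℂ V]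
    [FiniteDimensional ℂ V] (ρ : G →* (V →L[ℂ] V)) (hρ : Continuous ρ)
    (hu : ∀ g v, ‖ρ g v‖ = ‖v‖)
    (hline : ¬ ∃ v : V, v ≠ 0 ∧ ∀ g, ∃ α : ℂ, ρ g v = α • v) :
    ∃ a b : G, ¬ ∃ v : V, v ≠ 0 ∧ (∃ α : ℂ, ρ a v = α • v) ∧ (∃ β : ℂ, ρ b v = β • v) := by
  let hΓ := lie1_grp ρ hρ hu
  obtain ⟨X, hX, Y, hY, hXY⟩ := lie_pair (lie1Alg (Set.range ρ) hΓ)
    (fun X hX Y hY => lie1Alg_bracket _ hΓ X Y hX hY)
    (fun X hX u v => lie1_skew ρ hu X hX u v)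
    (by
      rintro ⟨v, hv, h⟩
      exact hline ⟨v, hv, lie1_N ρ hρ hu v hv h⟩)
  by_contra hcon
  push Not at hcon
  let r : ℕ → ℝ := fun n => 1 / ((n : ℝ) + 1)
  have hr : Tendsto r atTop (𝓝 0) := tendsto_one_div_add_atTop_nhds_zero_nat
  have hr0 : ∀ n, 0 < r n := lie1_seq_pos
  choose a ha using fun n => hX (r n)
  choose b hb using fun n => hY (r n)
  choose v hv0 hva hvb using fun n => hcon (a n) (b n)
  choose α hα using hva
  choose β hβ using hvb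
  let w : ℕ → V := fun n => ((‖v n‖⁻¹ : ℝ) : ℂ) • v n
  have hw : ∀ n, w n ∈ Metric.sphere (0 : V) 1 := by
    intro n
    rw [mem_sphere_zero_iff_norm]
    show ‖((‖v n‖⁻¹ : ℝ) : ℂ) • v n‖ = 1
    rw [norm_smul, Complex.norm_real, norm_inv, norm_norm, inv_mul_cancel₀ (norm_ne_zero_iff.2 (hv0 n))]
  have : ProperSpace V := FiniteDimensional.proper ℂ _
  obtain ⟨w0, hw0, φ, hφ, hwlim⟩ := (isCompact_sphere (0 : V) 1).tendsto_subseq hw
  have hrφ : Tendsto (r ∘ φ) atTop (𝓝 0) := hr.comp hφ.tendsto_atTop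
  apply hXY
  refine ⟨w0, ?_, ?_, ?_⟩
  · rintro rfl
    rw [mem_sphere_zero_iff_norm, norm_zero] at hw0
    exact zero_ne_one hw0
  · refine lie1_limit_eig X (r ∘ φ) (fun n => hr0 _) hrφ (w ∘ φ) w0 hwlim
      (fun n => mem_sphere_zero_iff_norm.1 (hw _)) (α ∘ φ) (fun n => ?_)
    show NormedSpace.exp (r (φ n) • X) (w (φ n)) = α (φ n) • w (φ n)
    rw [← ha]
    show ρ (a (φ n)) (((‖v (φ n)‖⁻¹ : ℝ) : ℂ) • v (φ n)) = _
    rw [map_smul, hα, smul_comm]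
  · refine lie1_limit_eig Y (r ∘ φ) (fun n => hr0 _) hrφ (w ∘ φ) w0 hwlim
      (fun n => mem_sphere_zero_iff_norm.1 (hw _)) (β ∘ φ) (fun n => ?_)
    show NormedSpace.exp (r (φ n) • Y) (w (φ n)) = β (φ n) • w (φ n)
    rw [← hb]
    show ρ (b (φ n)) (((‖v (φ n)‖⁻¹ : ℝ) : ℂ) • v (φ n)) = _
    rw [map_smul, hβ, smul_comm]

end Pool.Agent.Skew
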