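import Pool.Agent.Helper47.RR.Defs

/-!
# The Riemann inequality for function fields over an algebraically closed field
-/

set_option autoImplicit false
set_option linter.style.haveILetI false

namespace Pool.Agent.Helper47.RR

open Pool.Agent.Helper16 Polynomial IntermediateField

section

variable {k L : Type} [Field k] [Field L] [Algebra k L]

/-! ### Degrees -/

theorem degD_add (D E : Dv k L) : degD (D + E) = degD D + degD E := by
  unfold degD
  exact Finsupp.sum_add_index' (fun _ => rfl) (fun _ _ _ => rfl)

theorem degD_single (v : Place k L) (n : ℤ) : degD (Finsupp.single v n : Dv k L) = n := by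
  unfold degD
  exact Finsupp.sum_single_index rfl

theorem degD_zero : degD (0 : Dv k L) = 0 := by
  unfold degD
  exact Finsupp.sum_zero_index

theorem degD_neg (D : Dv k L) : degD (-D) = - degD D := by
  have h := degD_add D (-D)
  rw [add_neg_cancel, degD_zero] at h
  omega

theorem degD_sub (D E : Dv k L) : degD (D - E) = degD D - degD E := by
  rw [sub_eq_add_neg, degD_add, degD_neg]
  ring

theorem degD_nsmul (m : ℕ) (D : Dv k L) : degD (m • D) = m * degD D := by
  induction m with
  | zero => rw [zero_smul, degD_zero]; simp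
  | succ m ih => rw [succ_nsmul, degD_add, ih]; push_cast; ring

theorem degD_nonneg {D : Dv k L} (h : 0 ≤ D) : 0 ≤ degD D :=
  Finset.sum_nonneg fun v _ => h v

theorem degD_mono {D E : Dv k L} (h : D ≤ E) : degD D ≤ degD E := by
  have h1 := degD_nonneg (D := E - D) (sub_nonneg.2 h)
  rw [degD_sub] at h1
  omega

/-! ### Principal divisors -/

theorem prin_apply (hN : IsFunctionField k L) (f : L) (v : Place k L) :
    prin hN f v = v.ord f := rfl

theorem degD_prin [IsAlgClosed k] (hN : IsFunctionField k L) (f : L) :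
    degD (prin hN f) = 0 := by
  obtain ⟨S, h1, h2⟩ := hN.product_formula f
  have h3 : (prin hN f).support = S := by
    ext v
    rw [Finsupp.mem_support_iff, h1, prin_apply]
  unfold degD Finsupp.sum
  rw [h3, ← h2]
  refine Finset.sum_congr rfl fun v _ => ?_
  rw [prin_apply, Pool.Agent.Helper45.FF.deg_eq_one hN v]
  simp

/-! ### Riemann-Roch spaces -/

theorem le_exp_iff (v : Place k L) {f : L} (hf : f ≠ 0) (n : ℤ) :
    v.val f ≤ WithZero.exp n ↔ - n ≤ v.ord f := by
  have h0 : v.val f ≠ 0 := by simpa using hf
  unfold Place.ord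
  rw [← WithZero.log_le_log h0 WithZero.exp_ne_zero, WithZero.log_exp]
  omega

theorem mem_Lsp_iff (D : Dv k L) {f : L} (hf : f ≠ 0) :
    f ∈ Lsp D ↔ ∀ v : Place k L, - D v ≤ v.ord f := by
  rw [mem_Lsp]
  exact forall_congr' fun v => le_exp_iff v hf _

theorem Lsp_mono {D E : Dv k L} (h : D ≤ E) : Lsp D ≤ Lsp E := by
  intro f hf
  rw [mem_Lsp] at hf ⊢
  intro v
  exact (hf v).trans (WithZero.exp_le_exp.2 (h v))

theorem Lsp_eq_bot [IsAlgClosed k] (hN : IsFunctionField k L) {D : Dv k L} (h : degD D < 0) :
    Lsp D = ⊥ := by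
  rw [eq_bot_iff]
  intro f hf
  rw [Submodule.mem_bot]
  by_contra hf0
  rw [mem_Lsp_iff D hf0] at hf
  have h1 : 0 ≤ degD (D + prin hN f) := by
    apply degD_nonneg
    intro v
    have := hf v
    rw [Finsupp.add_apply, prin_apply, Finsupp.coe_zero, Pi.zero_apply]
    omega
  rw [degD_add, degD_prin] at h1
  omega

theorem Lsp_step (D : Dv k L) (v : Place k L) :
    Lsp (D + Finsupp.single v 1) ⊓ v.filt (D v) = Lsp D := by
  classical
  apply le_antisymm
  · rintro f ⟨h1, h2⟩
    change f ∈ Lsp _ at h1
    rw [mem_Lsp] at h1 ⊢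
    intro w
    by_cases hw : v = w
    · subst hw
      exact h2
    · have := h1 w
      rwa [Finsupp.add_apply, Finsupp.single_apply, if_neg hw, add_zero] at this
  · intro f hf
    refine ⟨?_, ?_⟩
    · refine Lsp_mono (E := D + Finsupp.single v 1) ?_ hf
      have : (0 : Dv k L) ≤ Finsupp.single v 1 := by
        rw [Finsupp.single_nonneg]
        norm_num
      simp
    · rw [mem_Lsp] at hf
      exact hf v

theorem Lsp_le_filt (D : Dv k L) (v : Place k L) : Lsp D ≤ v.filt (D v) := by
  intro f hf
  rw [mem_Lsp] at hf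
  exact hf v

/-- A form of `Place.finrank_le_cut` which also yields finite-dimensionality. -/
theorem finite_of_cut (v : Place k L) (hv : Module.Finite k v.resField) (m : ℤ)
    (W : Submodule k L) (hW : W ≤ v.filt (m + 1))
    (hfin : FiniteDimensional k (W ⊓ v.filt m : Submodule k L)) : FiniteDimensional k W := by
  obtain ⟨π, hπ0, hπ⟩ := v.exists_uniformizer
  have hmem : ∀ f ∈ W, f * π ^ (m + 1) ∈ v.ring := by
    intro f hf
    have h1 : v.val f ≤ WithZero.exp (m + 1) := hW hf
    rw [v.mem_ring, map_mul, map_zpow₀, hπ, ← WithZero.exp_zsmul]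
    calc v.val f * WithZero.exp ((m + 1) • (-1 : ℤ)) ≤
          WithZero.exp (m + 1) * WithZero.exp ((m + 1) • (-1 : ℤ)) := by gcongr
      _ = 1 := by
          rw [← WithZero.exp_add]
          simp
  let T : W →ₗ[k] v.resField :=
    { toFun := fun f => v.res ((f : L) * π ^ (m + 1))
      map_add' := by
        intro f g
        rw [← v.res_add (hmem _ f.2) (hmem _ g.2), ← add_mul]
        rfl
      map_smul' := by
        intro c f
        have h1 : ((c • f : W) : L) * π ^ (m + 1) = algebraMap k L c * ((f : L) * π ^ (m + 1)) := by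
          rw [Submodule.coe_smul, Algebra.smul_def, mul_assoc]
        rw [h1, v.res_mul (v.ring.algebraMap_mem c) (hmem _ f.2), v.res_algebraMap,
          RingHom.id_apply, Algebra.smul_def] }
  have h4 : ∀ f : LinearMap.ker T, ((f : W) : L) ∈ (W ⊓ v.filt m : Submodule k L) := by
    intro f
    refine ⟨(f : W).2, ?_⟩
    have h5 : v.res (((f : W) : L) * π ^ (m + 1)) = 0 := f.2
    rw [v.res_eq_zero_iff (hmem _ (f : W).2), map_mul, map_zpow₀, hπ, ← WithZero.exp_zsmul] at h5
    change v.val ((f : W) : L) ≤ _
    by_cases h6 : ((f : W) : L) = 0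
    · rw [h6, map_zero]
      exact zero_le
    · have h7 : v.val ((f : W) : L) ≠ 0 := by simpa using h6
      rw [← WithZero.exp_log h7] at h5 ⊢
      rw [← WithZero.exp_add, ← WithZero.exp_zero, WithZero.exp_lt_exp] at h5
      rw [WithZero.exp_le_exp]
      simp at h5
      omega
  let ι : LinearMap.ker T →ₗ[k] (W ⊓ v.filt m : Submodule k L) :=
    { toFun := fun f => ⟨((f : W) : L), h4 f⟩
      map_add' := fun f g => rfl
      map_smul' := fun c f => rfl }
  have hι : Function.Injective ι := by
    intro f g hfg
    have h8 : ((f : W) : L) = ((g : W) : L) :=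
      congrArg (fun z : (W ⊓ v.filt m : Submodule k L) => (z : L)) hfg
    exact Subtype.ext (Subtype.ext h8)
  haveI h9 : Module.Finite k (LinearMap.ker T) := Module.Finite.of_injective ι hι
  haveI h10 : Module.Finite k (LinearMap.range T) := inferInstance
  haveI h11 : Module.Finite k (W ⧸ LinearMap.ker T) :=
    Module.Finite.equiv T.quotKerEquivRange.symm
  exact Module.Finite.of_submodule_quotient (LinearMap.ker T)

theorem finite_Lsp_step (hN : IsFunctionField k L) (D : Dv k L) (v : Place k L)
    (h : FiniteDimensional k (Lsp D)) :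
    FiniteDimensional k (Lsp (D + Finsupp.single v 1)) := by
  classical
  refine finite_of_cut v (v.finite_resField hN) (D v) _ ?_ ?_
  · have := Lsp_le_filt (D + Finsupp.single v 1) v
    rwa [Finsupp.add_apply, Finsupp.single_eq_same] at this
  · rw [Lsp_step]
    exact h

theorem exists_place' (hN : IsFunctionField k L) : Nonempty (Place k L) := by
  obtain ⟨t, ht⟩ := Pool.Agent.Helper45.S4.exists_transcendental hN
  obtain ⟨S, -, h2, h3⟩ := hN.zeros t ht
  by_contra hcon
  rw [not_nonempty_iff] at hcon
  have h4 : S = ∅ := Finset.eq_empty_of_isEmpty S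
  rw [h4, Finset.sum_empty] at h2
  have : (0 : ℤ) < (Module.finrank k⟮t⟯ L : ℤ) := by exact_mod_cast h3
  omega

theorem finite_Lsp [IsAlgClosed k] (hN : IsFunctionField k L) (D : Dv k L) :
    FiniteDimensional k (Lsp D) := by
  obtain ⟨v⟩ := exists_place' hN
  have h1 : ∀ n : ℕ, ∀ E : Dv k L, degD E < n → FiniteDimensional k (Lsp E) := by
    intro n
    induction n with
    | zero =>
      intro E hE
      rw [Lsp_eq_bot hN (by simpa using hE)]
      infer_instance
    | succ n ih =>
      intro E hE
      have h2 := ih (E - Finsupp.single v 1) (by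
        rw [degD_sub, degD_single]
        push_cast at hE
        omega)
      have h3 := finite_Lsp_step hN _ v h2
      rwa [sub_add_cancel] at h3
  refine h1 ((degD D).toNat + 1) D ?_
  have := Int.self_le_toNat (degD D)
  push_cast
  omega

theorem ell_mono [IsAlgClosed k] (hN : IsFunctionField k L) {D E : Dv k L} (h : D ≤ E) :
    ell D ≤ ell E := by
  haveI := finite_Lsp hN E
  unfold ell
  exact_mod_cast Submodule.finrank_mono (Lsp_mono h)

theorem le_add_single (D : Dv k L) (v : Place k L) : D ≤ D + Finsupp.single v 1 := by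
  have : (0 : Dv k L) ≤ Finsupp.single v 1 := by
    rw [Finsupp.single_nonneg]
    norm_num
  simp

theorem ell_mono_single [IsAlgClosed k] (hN : IsFunctionField k L) (D : Dv k L)
    (v : Place k L) :
    ell D ≤ ell (D + Finsupp.single v 1) ∧ ell (D + Finsupp.single v 1) ≤ ell D + 1 := by
  refine ⟨ell_mono hN (le_add_single D v), ?_⟩
  haveI := finite_Lsp hN (D + Finsupp.single v 1)
  have h1 := v.finrank_le_cut (v.finite_resField hN) (D v) (Lsp (D + Finsupp.single v 1)) (by
    have := Lsp_le_filt (D + Finsupp.single v 1) v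
    rwa [Finsupp.add_apply, Finsupp.single_eq_same] at this)
  rw [Lsp_step, Pool.Agent.Helper45.FF.deg_eq_one hN v] at h1
  unfold ell
  exact_mod_cast h1

/-- Climbing from `D` to `E ≥ D` one place at a time. -/
theorem dv_induction {D : Dv k L} (P : Dv k L → Prop) (h0 : P D)
    (h1 : ∀ (E : Dv k L) (v : Place k L), D ≤ E → P E → P (E + Finsupp.single v 1)) :
    ∀ E : Dv k L, D ≤ E → P E := by
  classical
  have key : ∀ n : ℕ, ∀ E : Dv k L, D ≤ E → degD E = degD D + n → P E := by
    intro n
    induction n with
    | zero =>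
      intro E hE hdeg
      by_cases hne : D = E
      · rwa [← hne]
      · exfalso
        obtain ⟨v, hv⟩ : ∃ v, D v ≠ E v := by
          by_contra hcon
          push Not at hcon
          exact hne (Finsupp.ext hcon)
        have hlt : D v < E v := lt_of_le_of_ne (hE v) hv
        have h2 : D ≤ E - Finsupp.single v 1 := by
          intro w
          rw [Finsupp.sub_apply, Finsupp.single_apply]
          by_cases hw : v = w
          · subst hw
            rw [if_pos rfl]
            omega
          · rw [if_neg hw, sub_zero]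
            exact hE w
        have h3 := degD_mono h2
        rw [degD_sub, degD_single] at h3
        push_cast at hdeg
        omega
    | succ n ih =>
      intro E hE hdeg
      obtain ⟨v, hv⟩ : ∃ v, D v ≠ E v := by
        by_contra hcon
        push Not at hcon
        rw [Finsupp.ext hcon] at hdeg
        push_cast at hdeg
        omega
      have hlt : D v < E v := lt_of_le_of_ne (hE v) hv
      have h2 : D ≤ E - Finsupp.single v 1 := by
        intro w
        rw [Finsupp.sub_apply, Finsupp.single_apply]
        by_cases hw : v = w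
        · subst hw
          rw [if_pos rfl]
          omega
        · rw [if_neg hw, sub_zero]
          exact hE w
      have h3 := ih (E - Finsupp.single v 1) h2 (by
        rw [degD_sub, degD_single]
        push_cast at hdeg
        omega)
      have h4 := h1 _ v h2 h3
      rwa [sub_add_cancel] at h4
  intro E hE
  have h2 := degD_mono hE
  refine key (degD E - degD D).toNat E hE ?_
  rw [Int.toNat_of_nonneg (by omega)]
  ring

theorem deg_sub_ell_mono [IsAlgClosed k] (hN : IsFunctionField k L) {D E : Dv k L} (h : D ≤ E) :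
    degD D - ell D ≤ degD E - ell E := by
  refine dv_induction (D := D) (fun E => degD D - ell D ≤ degD E - ell E) le_rfl ?_ E h
  intro E v _ hE
  have h1 := (ell_mono_single hN E v).2
  rw [degD_add, degD_single]
  omega

theorem ell_zero [IsAlgClosed k] (hN : IsFunctionField k L) : ell (0 : Dv k L) = 1 := by
  obtain ⟨w⟩ := exists_place' hN
  haveI := finite_Lsp hN (0 : Dv k L)
  have h1 : Module.finrank k (Lsp (0 : Dv k L)) ≤ 1 := by
    rw [← Pool.Agent.Helper45.FF.deg_eq_one hN w]
    refine w.finrank_le_of_algebraic hN _ ?_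
    intro f hf
    by_contra htr
    have hf0 : f ≠ 0 := by
      rintro rfl
      exact htr isAlgebraic_zero
    obtain ⟨S, h2, h3, h4⟩ := hN.zeros f⁻¹ (transcendental_inv htr)
    have h5 : S = ∅ := by
      rw [Finset.eq_empty_iff_forall_notMem]
      intro v hv
      rw [h2, map_inv₀, inv_lt_one₀ (zero_lt_iff.2 (by simpa using hf0))] at hv
      rw [mem_Lsp] at hf
      have := hf v
      rw [Finsupp.coe_zero, Pi.zero_apply, WithZero.exp_zero] at this
      exact absurd hv (not_lt.2 this)
    rw [h5, Finset.sum_empty] at h3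
    have : (0 : ℤ) < (Module.finrank k⟮f⁻¹⟯ L : ℤ) := by exact_mod_cast h4
    omega
  have h2 : (1 : L) ∈ Lsp (0 : Dv k L) := by
    rw [mem_Lsp]
    intro v
    rw [map_one, Finsupp.coe_zero, Pi.zero_apply, WithZero.exp_zero]
  have h3 : 0 < Module.finrank k (Lsp (0 : Dv k L)) := by
    haveI : Nontrivial (Lsp (0 : Dv k L)) :=
      ⟨⟨⟨1, h2⟩, 0, fun h => one_ne_zero (congrArg Subtype.val h)⟩⟩
    exact Module.finrank_pos
  unfold ell
  omega

theorem ell_nonneg (D : Dv k L) : 0 ≤ ell D := Int.natCast_nonneg _

theorem ell_add_prin (hN : IsFunctionField k L) (D : Dv k L) {f : L} (hf : f ≠ 0) :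
    ell (D + prin hN f) = ell D := by
  have hiff : ∀ g : L, g ∈ Lsp (D + prin hN f) ↔ f * g ∈ Lsp D := by
    intro g
    by_cases hg : g = 0
    · rw [hg, mul_zero]
      exact ⟨fun _ => zero_mem _, fun _ => zero_mem _⟩
    · rw [mem_Lsp_iff _ hg, mem_Lsp_iff _ (mul_ne_zero hf hg)]
      refine forall_congr' fun v => ?_
      rw [v.ord_mul hf hg, Finsupp.add_apply, prin_apply]
      constructor <;> intro h <;> omega
  let e : Lsp (D + prin hN f) ≃ₗ[k] Lsp D :=
    { toFun := fun g => ⟨f * (g : L), (hiff _).1 g.2⟩
      map_add' := by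
        intro a b
        apply Subtype.ext
        change f * ((a : L) + (b : L)) = f * (a : L) + f * (b : L)
        ring
      map_smul' := by
        intro c a
        apply Subtype.ext
        change f * (c • (a : L)) = c • (f * (a : L))
        rw [mul_smul_comm]
      invFun := fun g => ⟨f⁻¹ * (g : L), by
        rw [hiff, mul_inv_cancel_left₀ hf]
        exact g.2⟩
      left_inv := by
        intro g
        apply Subtype.ext
        exact inv_mul_cancel_left₀ hf _
      right_inv := by
        intro g
        apply Subtype.ext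
        exact mul_inv_cancel_left₀ hf _ }
  unfold ell
  rw [e.finrank_eq]

/-! ### The Riemann inequality -/

/-- The pole divisor of a transcendental function grows fast enough. -/
theorem exists_pole_divisor [IsAlgClosed k] (hN : IsFunctionField k L) :
    ∃ (B : Dv k L) (n : ℕ) (c : ℤ), 0 < n ∧ degD B = n ∧
      ∀ m : ℕ, (m : ℤ) * n - c ≤ ell (m • B) := by
  classical
  obtain ⟨y, hytr⟩ := Pool.Agent.Helper45.S4.exists_transcendental hN
  have hy0 : y ≠ 0 := transcendental_ne_zero hytr
  obtain ⟨T, hT, hsum, hnpos⟩ := hN.zeros y hytr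
  set s := y⁻¹ with hs
  have hstr : Transcendental k s := transcendental_inv hytr
  haveI := hN.finiteDimensional s hstr
  have hn : Module.finrank k⟮s⟯ L = Module.finrank k⟮y⟯ L := by rw [hs, finrank_inv]
  obtain ⟨n, hnn⟩ : ∃ n, Module.finrank k⟮s⟯ L = n := ⟨_, rfl⟩
  rw [hnn] at hn
  obtain ⟨x, hxi, hxint⟩ : ∃ x : Fin n → L, LinearIndependent k⟮s⟯ x ∧ ∀ i, IntOver k s (x i) :=
    hnn ▸ exists_integral_basis s hstr
  have hx0 : ∀ i, x i ≠ 0 := fun i => hxi.ne_zero i
  let B : Dv k L := ∑ v ∈ T, Finsupp.single v (v.ord y)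
  let C0 : Dv k L := ∑ v ∈ T, Finsupp.single v (1 : ℤ)
  have hBv : ∀ v, B v = if v ∈ T then v.ord y else 0 := by
    intro v
    simp only [B, Finsupp.finsetSum_apply, Finsupp.single_apply]
    rw [Finset.sum_ite_eq']
  have hC0v : ∀ v, C0 v = if v ∈ T then 1 else 0 := by
    intro v
    simp only [C0, Finsupp.finsetSum_apply, Finsupp.single_apply]
    rw [Finset.sum_ite_eq']
  obtain ⟨j, hj⟩ : ∃ j : ℕ, ∀ v ∈ T, ∀ i, WithZero.log (v.val (x i)) ≤ j := by
    refine ⟨∑ v ∈ T, ∑ i, (WithZero.log (v.val (x i))).toNat, fun v hv i => ?_⟩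
    have h1 : (WithZero.log (v.val (x i))).toNat ≤ ∑ i, (WithZero.log (v.val (x i))).toNat :=
      Finset.single_le_sum (f := fun i => (WithZero.log (v.val (x i))).toNat)
        (fun _ _ => Nat.zero_le _) (Finset.mem_univ i)
    have h2 : ∑ i, (WithZero.log (v.val (x i))).toNat ≤
        ∑ v ∈ T, ∑ i, (WithZero.log (v.val (x i))).toNat :=
      Finset.single_le_sum (f := fun v : Place k L => ∑ i, (WithZero.log (v.val (x i))).toNat)
        (fun _ _ => Nat.zero_le _) hv
    have h3 := Int.self_le_toNat (WithZero.log (v.val (x i)))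
    push_cast
    have h4 : ((WithZero.log (v.val (x i))).toNat : ℤ) ≤
        ((∑ v ∈ T, ∑ i, (WithZero.log (v.val (x i))).toNat : ℕ) : ℤ) := by
      exact_mod_cast h1.trans h2
    push_cast at h4
    exact h3.trans h4
  have hdegB : degD B = n := by
    have h1 : degD B = ∑ v ∈ T, v.ord y := by
      have h2 : ∀ S : Finset (Place k L), degD (∑ v ∈ S, Finsupp.single v (v.ord y)) =
          ∑ v ∈ S, v.ord y := by
        intro S
        induction S using Finset.induction_on with
        | empty => simp [degD_zero]
        | insert a S ha ih => rw [Finset.sum_insert ha, Finset.sum_insert ha, degD_add, ih,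
            degD_single]
      exact h2 T
    rw [h1, hn, ← hsum]
    refine Finset.sum_congr rfl fun v _ => ?_
    rw [Pool.Agent.Helper45.FF.deg_eq_one hN v]
    simp
  have hnp : 0 < n := by rw [hn]; exact hnpos
  have hkey : ∀ m : ℕ, ((m : ℤ) + 1) * n ≤ ell (m • B + j • C0) := by
    intro m
    let F : Fin (m + 1) × Fin n → L := fun p => s ^ (p.1 : ℕ) * x p.2
    have hF : LinearIndependent k F := linearIndependent_pow_mul s hstr x hxi (m + 1)
    have hmem : ∀ p, F p ∈ Lsp (m • B + j • C0) := by
      intro p
      rw [mem_Lsp]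
      intro v
      have hval : (m • B + j • C0) v = m * B v + j * C0 v := by
        rw [Finsupp.add_apply, Finsupp.smul_apply, Finsupp.smul_apply]
        simp
      rw [hval, hBv, hC0v]
      change v.val (s ^ (p.1 : ℕ) * x p.2) ≤ _
      by_cases hv : v ∈ T
      · rw [if_pos hv, if_pos hv]
        have h0 : v.val y ≠ 0 := by simpa using hy0
        have hvs : v.val s = WithZero.exp (v.ord y) := by
          rw [hs, map_inv₀, Place.ord, ← WithZero.exp_log h0, WithZero.log_exp, WithZero.exp_neg]
        rw [map_mul, map_pow, hvs,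
          ← WithZero.exp_log (show v.val (x p.2) ≠ 0 by simpa using hx0 p.2),
          ← WithZero.exp_nsmul, ← WithZero.exp_add, WithZero.exp_le_exp]
        have h1 := hj v hv p.2
        have h2 : (p.1 : ℕ) ≤ m := Nat.lt_succ_iff.1 p.1.2
        have h3 : 0 < v.ord y := (v.ord_pos_iff hy0).2 ((hT v).1 hv)
        have h4 : ((p.1 : ℕ) : ℤ) ≤ m := by exact_mod_cast h2
        simp only [nsmul_eq_mul]
        nlinarith
      · rw [if_neg hv, if_neg hv]
        have h1 : v.val s ≤ 1 := by
          rw [hT, not_lt] at hv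
          rw [hs, map_inv₀]
          exact inv_le_one_of_one_le₀ hv
        rw [map_mul, map_pow]
        simp only [mul_zero, add_zero, WithZero.exp_zero]
        exact mul_le_one' (pow_le_one' h1 _) ((hxint p.2).mem_ring v h1)
    haveI := finite_Lsp hN (m • B + j • C0)
    let F' : Fin (m + 1) × Fin n → Lsp (m • B + j • C0) := fun p => ⟨F p, hmem p⟩
    have hF' : LinearIndependent k F' := by
      apply LinearIndependent.of_comp (Lsp (m • B + j • C0)).subtype
      exact hF
    have h1 := hF'.fintype_card_le_finrank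
    simp only [Fintype.card_prod, Fintype.card_fin] at h1
    unfold ell
    exact_mod_cast h1
  refine ⟨B, n, degD (j • C0), hnp, hdegB, fun m => ?_⟩
  have h1 := hkey m
  have h2 : (0 : Dv k L) ≤ j • C0 := by
    intro v
    rw [Finsupp.smul_apply, hC0v]
    split_ifs <;> simp
  have h3 := deg_sub_ell_mono hN (D := m • B) (E := m • B + j • C0) (by simpa using h2)
  rw [degD_add] at h3
  have h4 : (0 : ℤ) < n := by exact_mod_cast hnp
  nlinarith

/-- **Riemann's inequality.** -/
theorem exists_riemann [IsAlgClosed k] (hN : IsFunctionField k L) :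
    ∃ gam : ℤ, ∀ D : Dv k L, degD D - ell D ≤ gam := by
  classical
  obtain ⟨B, n, c, hn, hB, hm⟩ := exists_pole_divisor hN
  refine ⟨c, fun D => ?_⟩
  -- a nonnegative divisor above `D`
  let E : Dv k L := D ⊔ 0
  have hDE : D ≤ E := le_sup_left
  have hE0 : 0 ≤ E := le_sup_right
  have h1 : (0 : ℤ) < n := by exact_mod_cast hn
  set m : ℕ := (c + degD E + 1).toNat with hmdef
  have h2 : c + degD E + 1 ≤ m := Int.self_le_toNat _
  have h3 := hm m
  have h4 := deg_sub_ell_mono hN (D := m • B - E) (E := m • B) (by simpa using hE0)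
  rw [degD_sub] at h4
  have h5 : 0 < ell (m • B - E) := by nlinarith
  have h6 : Lsp (m • B - E) ≠ ⊥ := by
    intro h
    unfold ell at h5
    rw [h] at h5
    simp at h5
  obtain ⟨f, hf, hf0⟩ := Submodule.exists_mem_ne_zero_of_ne_bot h6
  rw [mem_Lsp_iff _ hf0] at hf
  have h7 : E ≤ m • B + prin hN f := by
    intro v
    have := hf v
    rw [Finsupp.sub_apply] at this
    rw [Finsupp.add_apply, prin_apply]
    omega
  have h8 := deg_sub_ell_mono hN (hDE.trans h7)
  rw [degD_add, degD_prin, ell_add_prin hN _ hf0, degD_nsmul, hB] at h8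
  linarith

end

end Pool.Agent.Helper47.RR
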